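import Pool.Agent.Lib.MP_f0fee1_an.Extract

/-! A closed subspace of bounded functions with the gluing property is a Grothendieck space. -/

open BoundedContinuousFunction Filter Topology
open scoped BigOperators

namespace Pool.Agent.Lib.MP_f0fee1_an

variable {G : ℕ → Type} [∀ i, Fintype (G i)] [∀ i, Nonempty (G i)]
  {W : Type} [NormedAddCommGroup W] [NormedSpace ℝ W]

/-- The gluing property. -/
def Glue (ι : W →ₗᵢ[ℝ] (Pt G →ᵇ ℝ)) (δ : ℝ) : Prop :=
  ∀ h : Pt G →ᵇ ℝ, ‖h‖ ≤ 1 → (∀ i, ∃ g : W, ‖g‖ ≤ 1 ∧ av i (ind {x | h x ≠ ι g x}) ≤ δ) →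
    ∃ f : W, ‖ι f - h‖ ≤ 1 / 10

lemma exists_ext {E X : Type*} [NormedAddCommGroup E] [NormedSpace ℝ E]
    [NormedAddCommGroup X] [NormedSpace ℝ X] (j : X →ₗᵢ[ℝ] E) (F : StrongDual ℝ X) :
    ∃ μ : StrongDual ℝ E, (∀ x, μ (j x) = F x) ∧ ‖μ‖ = ‖F‖ := by
  obtain ⟨μ, h1, h2⟩ := exists_extension_norm_eq (LinearMap.range j.toLinearMap)
    (F.comp j.equivRange.symm.toLinearIsometry.toContinuousLinearMap)
  refine ⟨μ, fun x => ?_, ?_⟩
  · have := h1 (j.equivRange x)
    simpa using this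
  · rw [h2]
    exact ContinuousLinearMap.opNorm_comp_linearIsometryEquiv F j.equivRange.symm

lemma exists_almost_norming {E : Type*} [NormedAddCommGroup E] [NormedSpace ℝ E]
    (F : StrongDual ℝ E) {e : ℝ} (he : 0 < e) : ∃ x : E, ‖x‖ ≤ 1 ∧ ‖F‖ - e ≤ F x := by
  obtain ⟨x, hx, hF⟩ := F.exists_lt_apply_of_lt_opNorm (show ‖F‖ - e < ‖F‖ by linarith)
  rw [Real.norm_eq_abs] at hF
  rcases le_total 0 (F x) with h | h
  · exact ⟨x, hx.le, by rw [abs_of_nonneg h] at hF; exact hF.le⟩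
  · exact ⟨-x, by simpa using hx.le, by rw [abs_of_nonpos h] at hF; rw [map_neg]; exact hF.le⟩

lemma scale_bound {J : Type} [TopologicalSpace J] (a b : (J →ᵇ ℝ) → ℝ) (c : ℝ)
    (ha : ∀ (r : ℝ) φ, a (r • φ) = r * a φ) (hb : ∀ (r : ℝ) φ, 0 ≤ r → b (r • φ) = r * b φ)
    (h : ∀ φ, ‖φ‖ ≤ 1 → a φ ≤ b φ + c) {R : ℝ} (hR : 0 < R) (φ : J →ᵇ ℝ) (hφ : ‖φ‖ ≤ R) :
    a φ ≤ b φ + c * R := by
  have h1 := h ((1 / R) • φ) (by
    rw [norm_smul, Real.norm_of_nonneg (by positivity), one_div, inv_mul_le_iff₀ hR]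
    simpa using hφ)
  rw [ha, hb _ _ (by positivity)] at h1
  have h2 := mul_le_mul_of_nonneg_left h1 hR.le
  have e1 : R * (1 / R * a φ) = a φ := by field_simp
  have e2 : R * (1 / R * b φ + c) = b φ + c * R := by field_simp
  rwa [e1, e2] at h2

theorem core (ι : W →ₗᵢ[ℝ] (Pt G →ᵇ ℝ)) {δ : ℝ} (hδ : 0 < δ) (hW : Glue ι δ)
    (F : ℕ → StrongDual ℝ W) (h1 : ∀ n, ‖F n‖ ≤ 1 + 1 / 1000)
    (h2 : ∀ H ∈ convexHull ℝ (Set.range F), 1 - 1 / 1000 ≤ ‖H‖)
    (h3 : ∀ w, Tendsto (fun n => F n w) atTop (𝓝 0)) : False := by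
  classical
  choose μ hμ1 hμ2 using fun n => exists_ext ι (F n)
  choose g hg1 hg2 using fun n : ℕ =>
    exists_almost_norming (F n) (show (0 : ℝ) < 1 / ((n : ℝ) + 1) by positivity)
  obtain ⟨σ, T, n, A, hσ, hT, hn, hA, hne, hoff, hsp⟩ := extract μ (fun n => ι (g n))
    (fun n => by rw [hμ2]; linarith [h1 n]) (fun n => by rw [ι.norm_map]; exact hg1 n) (fun n => by rw [hμ1, hμ2]; exact hg2 n)
    (show (0 : ℝ) < 1 / 1000 by norm_num) hδ
  set β : ℕ → ℝ := fun k => μ (n k) (ι (g (n k)) * ind (A k)) with hβ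
  have hσ1 : 0 ≤ σ 1 := hσ _ fun x => by simp
  have hoffR : ∀ k (R : ℝ), 0 < R → ∀ φ : Pt G →ᵇ ℝ, ‖φ‖ ≤ R →
      μ (n k) (φ * ind (A k)ᶜ) ≤ T * σ |φ| + 5 * (1 / 1000) * R := by
    intro k R hR φ hφ
    refine scale_bound (fun φ => μ (n k) (φ * ind (A k)ᶜ)) (fun φ => T * σ |φ|) _
      (fun r φ => ?_) (fun r φ hr => ?_) (hoff k) hR φ hφ
    · simp only [smul_mul_assoc, map_smul, smul_eq_mul]
    · have : |r • φ| = r • |φ| := by
        ext x
        change |r * φ x| = r * |φ x|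
        rw [abs_mul, abs_of_nonneg hr]
      simp only [this, map_smul, smul_eq_mul]; ring
  have honR : ∀ k (R : ℝ), 0 < R → ∀ φ : Pt G →ᵇ ℝ, ‖φ‖ ≤ R →
      μ (n k) (φ * ind (A k)) ≤ 0 + (β k + 1 / 1000) * R := by
    intro k R hR φ hφ
    refine scale_bound (fun φ => μ (n k) (φ * ind (A k))) (fun _ => 0) _
      (fun r φ => ?_) (fun r φ hr => by simp) (fun φ hφ => ?_) hR φ hφ
    · simp only [smul_mul_assoc, map_smul, smul_eq_mul]
    · rw [zero_add]
      refine dom_le _ _ _ _ _ (by rw [ι.norm_map]; exact hg1 _) (hne k) (fun x => ?_) (ind_le_one _)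
      rw [BoundedContinuousFunction.mul_apply, abs_mul, abs_of_nonneg (ind_nonneg _ x)]
      exact mul_le_of_le_one_left (ind_nonneg _ x) ((abs_le_norm φ x).trans hφ)
  have hsplit : ∀ k (φ : Pt G →ᵇ ℝ),
      μ (n k) φ = μ (n k) (φ * ind (A k)) + μ (n k) (φ * ind (A k)ᶜ) := by
    intro k φ
    rw [← map_add, ← mul_add, ← ind_union disjoint_compl_right, Set.union_compl_self]
    congr 1
    ext x
    simp [ind_mem (Set.mem_univ x)]
  set q : W → ℝ := fun w => σ (ι w * ι w) with hq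
  have hq0 : ∀ w, 0 ≤ q w := fun w => hσ _ fun x => mul_self_nonneg _
  have hqle : ∀ (w : W) (R : ℝ), ‖w‖ ≤ R → q w ≤ R ^ 2 * σ 1 := by
    intro w R hw
    have := hσ.mono (h := ι w * ι w) (h' := R ^ 2 • (1 : Pt G →ᵇ ℝ)) (fun x => by
      have h0 : |ι w x| ≤ R := (abs_le_norm _ x).trans (by rwa [ι.norm_map])
      have := sq_le_sq' (abs_le.1 h0).1 (abs_le.1 h0).2
      simpa [sq] using this)
    rwa [map_smul, smul_eq_mul] at this
  have hnull : ∀ w : W, Tendsto (fun k => F (n k) w) atTop (𝓝 0) := fun w =>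
    (h3 w).comp hn.tendsto_atTop
  -- Step 1
  have step1 : ∀ᶠ k in atTop, 3 / 10 ≤ β k := by
    by_contra hcon
    have hfr : ∃ᶠ k in atTop, β k < 3 / 10 := by
      simpa only [Filter.Frequently, not_lt] using hcon
    obtain ⟨κ, hκ, hκβ⟩ := extraction_of_frequently_atTop hfr
    have hmm : ∀ m : ℕ, ∃ f : W, ‖f‖ ≤ 1 ∧ ∀ i : Fin m, 1 - 2 / 1000 < F (n (κ i)) f := by
      intro m
      refine minimax (fun i : Fin m => F (n (κ i))) (a := 1 - 1 / 1000) (by norm_num)
        (by norm_num) fun H hH => h2 H (convexHull_mono ?_ hH)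
      rintro _ ⟨i, rfl⟩
      exact ⟨_, rfl⟩
    choose f hf1 hf2 using hmm
    set t : ℝ := (1 / 10) / (T * σ 1 + 1) with ht
    have hTσ : 0 ≤ T * σ 1 := mul_nonneg hT hσ1
    have ht0 : 0 < t := by positivity
    obtain ⟨u, hu, huv⟩ := komlos_lite f q hq0 (1 ^ 2 * σ 1) (fun m => hqle _ _ (hf1 m))
      (fun u v => by
        have : ι (u - v) * ι (u - v) = (2 : ℝ) • (ι u * ι u)
            + (2 : ℝ) • (ι v * ι v) - (4 : ℝ) •
              (ι ((1 / 2 : ℝ) • u + (1 / 2 : ℝ) • v) *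
                ι ((1 / 2 : ℝ) • u + (1 / 2 : ℝ) • v)) := by
          ext x; simp; ring
        simp only [hq]
        rw [this, map_sub, map_add, map_smul, map_smul, map_smul]
        simp only [smul_eq_mul])
      (e := (1 / 10) * t / (T + 1)) (by positivity)
    have hball : ∀ M, ∀ v ∈ convexHull ℝ (f '' Set.Ici M), ‖v‖ ≤ 1 := by
      intro M v hv
      have := convexHull_min (t := Metric.closedBall (0 : W) 1) (by
        rintro _ ⟨m, -, rfl⟩; simpa using hf1 m) (convex_closedBall 0 1) hv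
      simpa using this
    obtain ⟨j, hj⟩ := (((hnull u).comp hκ.tendsto_atTop).eventually
      (gt_mem_nhds (show (0 : ℝ) < 1 / 1000 by norm_num))).exists
    obtain ⟨v, hv, hquv⟩ := huv (j + 1)
    have hv1 : 1 - 2 / 1000 ≤ F (n (κ j)) v := by
      refine convexHull_min (t := {w | 1 - 2 / 1000 ≤ F (n (κ j)) w}) ?_
        (convex_halfSpace_ge (F (n (κ j))).toLinearMap.isLinear _) hv
      rintro _ ⟨m, hm, rfl⟩
      exact (hf2 m ⟨j, hm⟩).le
    have hn2 : ‖ι (v - u)‖ ≤ 2 := by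
      rw [ι.norm_map]
      linarith [norm_sub_le v u, hball _ _ hu, hball _ _ hv]
    have e1 := hsplit (κ j) (ι (v - u))
    rw [hμ1, map_sub] at e1
    have e2 := hoffR (κ j) 2 (by norm_num) _ hn2
    have e3 := honR (κ j) 2 (by norm_num) _ hn2
    have e4 := hσ.abs_le (ι (v - u)) ht0
    have e5 : σ (ι (v - u) * ι (v - u)) = q (u - v) := by
      simp only [hq]; congr 1; ext x; simp; ring
    rw [e5] at e4
    have e6 : T * (t * σ 1) ≤ 1 / 10 := by
      have : T * (t * σ 1) = (1 / 10) * ((T * σ 1) / (T * σ 1 + 1)) := by rw [ht]; ring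
      rw [this]
      have : (T * σ 1) / (T * σ 1 + 1) ≤ 1 := by rw [div_le_one (by positivity)]; linarith
      linarith
    have e7 : T * (q (u - v) / t) ≤ 1 / 10 := by
      calc T * (q (u - v) / t) ≤ T * ((1 / 10) * t / (T + 1) / t) := by gcongr
        _ = (1 / 10) * (T / (T + 1)) := by field_simp
        _ ≤ (1 / 10) * 1 := by
            gcongr; rw [div_le_one (by positivity)]; linarith
        _ = 1 / 10 := by norm_num
    have e8 := mul_le_mul_of_nonneg_left e4 hT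
    have e9 := hκβ j
    have e10 : F (n (κ j)) u < 1 / 1000 := hj
    nlinarith
  -- Step 2
  choose j hj using hsp
  set kx : Pt G → ℕ := fun x => if h : ∃ k, x ∈ A k then h.choose else j (nd x) with hkx
  have hkxA : ∀ k, ∀ x ∈ A k, kx x = k := by
    intro k x hx
    have h : ∃ k, x ∈ A k := ⟨k, hx⟩
    have e : kx x = h.choose := by simp only [hkx]; rw [dif_pos h]
    rw [e]
    by_contra hne
    rcases lt_or_gt_of_ne hne with hlt | hlt
    · exact Set.disjoint_left.1 (hA _ _ hlt) h.choose_spec hx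
    · exact Set.disjoint_left.1 (hA _ _ hlt) hx h.choose_spec
  set sg : Bool → ℝ := fun b => if b then 1 else -1 with hsg
  have hsg1 : ∀ b, |sg b| = 1 := fun b => by cases b <;> simp [hsg]
  have hsg2 : ∀ b, sg b * sg b = 1 := fun b => by cases b <;> simp [hsg]
  have hgx : ∀ m x, |ι (g m) x| ≤ 1 := fun m x =>
    (abs_le_norm _ x).trans (by rw [ι.norm_map]; exact hg1 m)
  set h : ℕ → Pt G →ᵇ ℝ := fun l =>
    mk (fun x => sg ((kx x).testBit l) * ι (g (n (kx x))) x) 1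
      (fun x => by rw [abs_mul, hsg1, one_mul]; exact hgx _ x) with hh
  have hh1 : ∀ l, ‖h l‖ ≤ 1 := fun l => norm_le_of_abs zero_le_one fun x => by
    simp only [hh, mk_apply]; rw [abs_mul, hsg1, one_mul]; exact hgx _ x
  have hglue : ∀ l, ∃ f : W, ‖ι f - h l‖ ≤ 1 / 10 := by
    intro l
    exact hW (h l) (hh1 l) (fun i => by
      refine ⟨sg ((j i).testBit l) • g (n (j i)), ?_, le_trans ?_ (hj i)⟩
      · rw [norm_smul, Real.norm_eq_abs, hsg1, one_mul]; exact hg1 _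
      · refine Finset.expect_le_expect fun t _ => ?_
        by_cases hx : pt i t ∈ {x | ∃ k, k ≠ j i ∧ x ∈ A k}
        · rw [ind_mem hx]; exact ind_le_one _ _
        · rw [ind_not_mem hx, ind_not_mem]
          have e : kx (pt i t) = j i := by
            by_cases hex : ∃ k, pt i t ∈ A k
            · obtain ⟨k, hk⟩ := hex
              rw [hkxA k _ hk]
              by_contra hne
              exact hx ⟨k, hne, hk⟩
            · simp only [hkx]; rw [dif_neg hex]; rfl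
          simp [hh, e])
  choose f hf using hglue
  have hf2 : ∀ l, ‖f l‖ ≤ 2 := fun l => by
    rw [← ι.norm_map]
    have := norm_add_le (ι (f l) - h l) (h l)
    rw [sub_add_cancel] at this
    linarith [hf l, hh1 l]
  have hTσ : 0 ≤ T * σ 1 := mul_nonneg hT hσ1
  set t : ℝ := 100 * (T * σ 1 + 1) with ht
  have ht0 : 0 < t := by positivity
  obtain ⟨L, hL⟩ := exists_nat_gt (10 * (T * (t * σ 1) + 1))
  have hL0 : (0 : ℝ) < L := lt_of_le_of_lt (by positivity) hL
  obtain ⟨θ, hθ⟩ := exists_signs f q (by simp [hq]) (fun u v => by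
    have : ι (u + v) * ι (u + v) + ι (u - v) * ι (u - v)
        = (2 : ℝ) • (ι u * ι u) + (2 : ℝ) • (ι v * ι v) := by
      ext x; simp; ring
    simp only [hq]
    rw [← map_add, this, map_add, map_smul, map_smul]
    simp only [smul_eq_mul]) L
  set Φ : W := ∑ l ∈ Finset.range L, sg (θ l) • f l with hΦ
  have hqΦ : q Φ ≤ 4 * L * σ 1 := by
    refine hθ.trans ?_
    calc ∑ l ∈ Finset.range L, q (f l) ≤ ∑ _l ∈ Finset.range L, 2 ^ 2 * σ 1 :=
          Finset.sum_le_sum fun l _ => hqle _ _ (hf2 l)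
      _ = 4 * L * σ 1 := by simp; ring
  have hΦn : ‖ι Φ‖ ≤ 2 * L := by
    rw [ι.norm_map]
    calc ‖Φ‖ ≤ ∑ l ∈ Finset.range L, ‖sg (θ l) • f l‖ := norm_sum_le _ _
      _ ≤ ∑ _l ∈ Finset.range L, (2 : ℝ) := Finset.sum_le_sum fun l _ => by
          rw [norm_smul, Real.norm_eq_abs, hsg1, one_mul]; exact hf2 l
      _ = 2 * L := by simp; ring
  obtain ⟨K, hK⟩ := eventually_atTop.1 (step1.and ((hnull Φ).eventually
    (gt_mem_nhds (show (0 : ℝ) < 1 by norm_num))))
  set k := 2 ^ L * K + Nat.ofBits (fun l : Fin L => θ l) with hk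
  have hkK : K ≤ k := le_trans (Nat.le_mul_of_pos_left K (by positivity)) (Nat.le_add_right _ _)
  have hbit : ∀ l < L, k.testBit l = θ l := by
    intro l hl
    rw [hk, Nat.testBit_two_pow_mul_add _ (Nat.ofBits_lt_two_pow _), if_pos hl,
      Nat.testBit_ofBits_lt _ _ hl]
  obtain ⟨hβk, hΦk⟩ := hK k hkK
  have c1 : ‖((L : ℝ) • ι (g (n k)) - ι Φ) * ind (A k)‖ ≤ L / 10 := by
    refine norm_le_of_abs (by positivity) fun x => ?_
    by_cases hx : x ∈ A k
    · have e : (((L : ℝ) • ι (g (n k)) - ι Φ) * ind (A k)) x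
          = ∑ l ∈ Finset.range L, - (sg (θ l) * ((ι (f l) - h l) x)) := by
        rw [BoundedContinuousFunction.mul_apply, ind_mem hx, mul_one,
          BoundedContinuousFunction.sub_apply, hΦ, map_sum,
          BoundedContinuousFunction.coe_sum, Finset.sum_apply,
          BoundedContinuousFunction.smul_apply, smul_eq_mul]
        have : (L : ℝ) * ι (g (n k)) x
            = ∑ _l ∈ Finset.range L, ι (g (n k)) x := by simp
        rw [this, ← Finset.sum_sub_distrib]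
        refine Finset.sum_congr rfl fun l hl => ?_
        have e2 : h l x = sg (θ l) * ι (g (n k)) x := by
          simp only [hh, mk_apply]
          rw [hkxA k x hx, hbit l (Finset.mem_range.1 hl)]
        simp only [map_smul, BoundedContinuousFunction.smul_apply, smul_eq_mul,
          BoundedContinuousFunction.sub_apply, e2]
        have := hsg2 (θ l)
        linear_combination (-ι (g (n k)) x) * this
      rw [e]
      calc |∑ l ∈ Finset.range L, - (sg (θ l) * ((ι (f l) - h l) x))|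
          ≤ ∑ l ∈ Finset.range L, |- (sg (θ l) * ((ι (f l) - h l) x))| :=
            Finset.abs_sum_le_sum_abs _ _
        _ ≤ ∑ _l ∈ Finset.range L, (1 / 10 : ℝ) := Finset.sum_le_sum fun l _ => by
            rw [abs_neg, abs_mul, hsg1, one_mul]
            exact (abs_le_norm _ x).trans (hf l)
        _ = L / 10 := by simp; ring
    · rw [BoundedContinuousFunction.mul_apply, ind_not_mem hx, mul_zero, abs_zero]
      positivity
  have c2 : μ (n k) (((L : ℝ) • ι (g (n k)) - ι Φ) * ind (A k))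
      ≤ (1 + 1 / 1000) * (L / 10) := by
    refine (le_abs_self _).trans (((μ (n k)).le_opNorm _).trans ?_)
    rw [hμ2]
    gcongr
    exact h1 _
  rw [sub_mul, map_sub, smul_mul_assoc, map_smul, smul_eq_mul] at c2
  have c3 := hoffR k (2 * L) (by positivity) (-(ι Φ)) (by rwa [norm_neg])
  have c3' : -ι Φ * ind (A k)ᶜ = -(ι Φ * ind (A k)ᶜ) := by ext x; simp
  rw [c3', map_neg, abs_neg] at c3
  have c4 := hsplit k (ι Φ)
  rw [hμ1] at c4
  have c5 := mul_le_mul_of_nonneg_left (hσ.abs_le (ι Φ) ht0) hT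
  have c6 : T * (q Φ / t) ≤ 4 / 100 * L := by
    calc T * (q Φ / t) ≤ T * (4 * L * σ 1 / t) := by gcongr
      _ = 4 / 100 * L * ((T * σ 1) / (T * σ 1 + 1)) := by rw [ht]; field_simp
      _ ≤ 4 / 100 * L * 1 := by
          gcongr; rw [div_le_one (by positivity)]; linarith
      _ = 4 / 100 * L := mul_one _
  have c7 : (L : ℝ) * (3 / 10) ≤ L * β k := by gcongr
  have c8 : q Φ = σ (ι Φ * ι Φ) := rfl
  have c9 : β k = μ (n k) (ι (g (n k)) * ind (A k)) := rfl
  rw [← c8, mul_add] at c5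
  rw [← c9] at c2
  linarith

theorem grothendieck_of_glue [CompleteSpace W] (ι : W →ₗᵢ[ℝ] (Pt G →ᵇ ℝ)) {δ : ℝ}
    (hδ : 0 < δ) (hW : Glue ι δ) (φ : ℕ → StrongDual ℝ W) (ψ : StrongDual ℝ W)
    (h : ∀ x, Tendsto (fun n => φ n x) atTop (𝓝 (ψ x))) (Θ : StrongDual ℝ (StrongDual ℝ W)) :
    Tendsto (fun n => Θ (φ n)) atTop (𝓝 (Θ ψ)) := by
  by_contra hcon
  rw [Metric.tendsto_nhds] at hcon
  push Not at hcon
  obtain ⟨c, hc, hfr⟩ := hcon
  obtain ⟨κ, hκ, hκc⟩ := extraction_of_frequently_atTop hfr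
  set x : ℕ → StrongDual ℝ W := fun n =>
    if 0 ≤ Θ (φ (κ n) - ψ) then φ (κ n) - ψ else -(φ (κ n) - ψ) with hx
  have hx1 : ∀ n, c ≤ Θ (x n) := by
    intro n
    have := hκc n
    rw [Real.dist_eq, ← map_sub] at this
    simp only [hx]
    split_ifs with h0
    · rwa [abs_of_nonneg h0] at this
    · rwa [abs_of_neg (not_le.1 h0), ← map_neg] at this
  have hx2 : ∀ w, Tendsto (fun n => x n w) atTop (𝓝 0) := by
    intro w
    have h1 : Tendsto (fun n => φ (κ n) w - ψ w) atTop (𝓝 0) :=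
      tendsto_sub_nhds_zero_iff.2 ((h w).comp hκ.tendsto_atTop)
    rw [tendsto_zero_iff_norm_tendsto_zero] at h1 ⊢
    refine h1.congr fun n => ?_
    simp only [hx]
    split_ifs
    · rfl
    · change _ = ‖-(φ (κ n) w - ψ w)‖
      rw [norm_neg]
  obtain ⟨C, hC⟩ := banach_steinhaus (g := x) fun w => by
    obtain ⟨C, hC⟩ := (hx2 w).norm.bddAbove_range
    exact ⟨C, fun n => hC ⟨n, rfl⟩⟩
  obtain ⟨d, hd1, hd2⟩ := tail_extremal x (fun v => ‖v‖) norm_nonneg C hC
  have hd : 0 < d := by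
    have hp : 0 < c / (‖Θ‖ + 1) := by positivity
    obtain ⟨v, hv, hv2⟩ := hd2 (c / (‖Θ‖ + 1) / 2) (by positivity) 0
    have h1 : c ≤ Θ v := convexHull_min (t := {w | c ≤ Θ w})
      (by rintro _ ⟨m, -, rfl⟩; exact hx1 m) (convex_halfSpace_ge Θ.toLinearMap.isLinear _) hv
    have h2 : Θ v ≤ (‖Θ‖ + 1) * ‖v‖ := by
      refine (le_abs_self _).trans ((Θ.le_opNorm v).trans ?_)
      gcongr; linarith
    have h3 : c / (‖Θ‖ + 1) ≤ ‖v‖ := by
      rw [div_le_iff₀ (by positivity)]; linarith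
    linarith
  obtain ⟨N, hN⟩ := hd1 (d / 1000) (by positivity)
  choose v hv1 hv2 using fun n => hd2 (d / 1000) (by positivity) (max N n)
  refine core ι hδ hW (fun n => (1 / d) • v n) (fun n => ?_) (fun H hH => ?_) (fun w => ?_)
  · rw [norm_smul, Real.norm_of_nonneg (by positivity), one_div, inv_mul_le_iff₀ hd]
    linarith [hv2 n]
  · have h1 : d • H ∈ convexHull ℝ (x '' Set.Ici N) := by
      refine convexHull_min (t := {H | d • H ∈ convexHull ℝ (x '' Set.Ici N)}) ?_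
        ((convex_convexHull ℝ _).smul_preimage d) hH
      rintro _ ⟨n, rfl⟩
      change d • ((1 / d) • v n) ∈ convexHull ℝ (x '' Set.Ici N)
      rw [smul_smul, mul_one_div_cancel hd.ne', one_smul]
      exact tail_mono x (le_max_left N n) (hv1 n)
    have h2 := hN _ h1
    rw [norm_smul, Real.norm_of_nonneg hd.le] at h2
    have h3 : d * (1 - 1 / 1000) ≤ d * ‖H‖ := by linarith
    exact le_of_mul_le_mul_left h3 hd
  · have : Tendsto (fun n => v n w) atTop (𝓝 0) := by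
      rw [Metric.tendsto_atTop]
      intro e he
      obtain ⟨M, hM⟩ := Metric.tendsto_atTop.1 (hx2 w) e he
      refine ⟨M, fun n hn => ?_⟩
      refine convexHull_min (t := (fun H : StrongDual ℝ W => H w) ⁻¹' Metric.ball 0 e) ?_
        ((convex_ball (0 : ℝ) e).is_linear_preimage ⟨fun _ _ => rfl, fun _ _ => rfl⟩) (hv1 n)
      rintro _ ⟨m, hm, rfl⟩
      exact hM m (le_trans hn (le_trans (le_max_right N n) hm))
    simpa using this.const_mul (1 / d)

end Pool.Agent.Lib.MP_f0fee1_an
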