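import Mathlib

/-! Basic functional-analytic lemmas for the Grothendieck space without `c₀`. -/

open BoundedContinuousFunction Filter Topology

namespace Pool.Agent.Lib.MP_f0fee1_an

section Bdd

variable {J : Type} [TopologicalSpace J] [DiscreteTopology J]

/-- A bounded function on a discrete space. -/
noncomputable def mk (f : J → ℝ) (C : ℝ) (h : ∀ x, |f x| ≤ C) : J →ᵇ ℝ :=
  BoundedContinuousFunction.ofNormedAddCommGroupDiscrete f C h

@[simp] lemma mk_apply (f : J → ℝ) (C : ℝ) (h : ∀ x, |f x| ≤ C) (x : J) : mk f C h x = f x := rfl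

open Classical in
/-- Indicator function of a set. -/
noncomputable def ind (D : Set J) : J →ᵇ ℝ :=
  mk (fun x => if x ∈ D then 1 else 0) 1 (fun x => by split_ifs <;> simp)

lemma ind_mem {D : Set J} {x : J} (h : x ∈ D) : ind D x = 1 := by simp [ind, h]

lemma ind_not_mem {D : Set J} {x : J} (h : x ∉ D) : ind D x = 0 := by simp [ind, h]

lemma ind_nonneg (D : Set J) (x : J) : 0 ≤ ind D x := by
  by_cases h : x ∈ D
  · rw [ind_mem h]; norm_num
  · rw [ind_not_mem h]

lemma ind_le_one (D : Set J) (x : J) : ind D x ≤ 1 := by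
  by_cases h : x ∈ D
  · rw [ind_mem h]
  · rw [ind_not_mem h]; norm_num

lemma ind_mono {D D' : Set J} (h : D ⊆ D') (x : J) : ind D x ≤ ind D' x := by
  by_cases hx : x ∈ D
  · rw [ind_mem hx, ind_mem (h hx)]
  · rw [ind_not_mem hx]; exact ind_nonneg _ _

lemma ind_union {D D' : Set J} (h : Disjoint D D') : ind (D ∪ D') = ind D + ind D' := by
  ext x
  by_cases hx : x ∈ D
  · have hx' : x ∉ D' := Set.disjoint_left.1 h hx
    simp [ind_mem hx, ind_not_mem hx', ind_mem (Set.mem_union_left D' hx)]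
  · by_cases hx' : x ∈ D'
    · simp [ind_not_mem hx, ind_mem hx', ind_mem (Set.mem_union_right D hx')]
    · have : x ∉ D ∪ D' := by simp [hx, hx']
      simp [ind_not_mem hx, ind_not_mem hx', ind_not_mem this]

lemma ind_union_le (D D' : Set J) (x : J) : ind (D ∪ D') x ≤ ind D x + ind D' x := by
  by_cases hx : x ∈ D ∪ D'
  · rw [ind_mem hx]
    rcases hx with hx | hx
    · rw [ind_mem hx]; linarith [ind_nonneg D' x]
    · rw [ind_mem hx]; linarith [ind_nonneg D x]
  · rw [ind_not_mem hx]; linarith [ind_nonneg D x, ind_nonneg D' x]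

lemma ind_empty : ind (∅ : Set J) = 0 := by
  ext x; simp [ind_not_mem (Set.notMem_empty x)]

omit [DiscreteTopology J] in
lemma norm_le_of_abs {f : J →ᵇ ℝ} {C : ℝ} (hC : 0 ≤ C) (h : ∀ x, |f x| ≤ C) : ‖f‖ ≤ C :=
  (BoundedContinuousFunction.norm_le hC).2 h

omit [DiscreteTopology J] in
lemma abs_le_norm (f : J →ᵇ ℝ) (x : J) : |f x| ≤ ‖f‖ := f.norm_coe_le_norm x

/-- Positive functionals. -/
def Pos (σ : StrongDual ℝ (J →ᵇ ℝ)) : Prop := ∀ h : J →ᵇ ℝ, (∀ x, 0 ≤ h x) → 0 ≤ σ h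

omit [DiscreteTopology J] in
lemma Pos.mono {σ : StrongDual ℝ (J →ᵇ ℝ)} (hσ : Pos σ) {h h' : J →ᵇ ℝ}
    (hh : ∀ x, h x ≤ h' x) : σ h ≤ σ h' := by
  have := hσ (h' - h) (fun x => by simpa using hh x)
  rw [map_sub] at this
  linarith

omit [DiscreteTopology J] in
/-- Domination by the almost-variation `h ↦ μ (g h)`. -/
lemma dom_le (μ : StrongDual ℝ (J →ᵇ ℝ)) (g φ h : J →ᵇ ℝ) (e : ℝ) (hg : ‖g‖ ≤ 1)
    (hμ : ‖μ‖ - e ≤ μ g) (hφ : ∀ x, |φ x| ≤ h x) (hh : ∀ x, h x ≤ 1) :
    μ φ ≤ μ (g * h) + e := by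
  have h1 : ‖φ + g - g * h‖ ≤ 1 := by
    refine norm_le_of_abs zero_le_one fun x => ?_
    have hgx : |g x| ≤ 1 := (abs_le_norm g x).trans hg
    have e1 : (φ + g - g * h) x = φ x + g x * (1 - h x) := by simp; ring
    rw [e1]
    calc |φ x + g x * (1 - h x)| ≤ |φ x| + |g x * (1 - h x)| := abs_add_le _ _
      _ = |φ x| + |g x| * (1 - h x) := by
          rw [abs_mul, abs_of_nonneg (sub_nonneg.2 (hh x))]
      _ ≤ h x + 1 * (1 - h x) := by
          gcongr
          · exact hφ x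
          · exact sub_nonneg.2 (hh x)
      _ = 1 := by ring
  have h2 : μ (φ + g - g * h) ≤ ‖μ‖ := by
    calc μ (φ + g - g * h) ≤ ‖μ (φ + g - g * h)‖ := le_abs_self _
      _ ≤ ‖μ‖ * ‖φ + g - g * h‖ := μ.le_opNorm _
      _ ≤ ‖μ‖ * 1 := by gcongr
      _ = ‖μ‖ := mul_one _
  rw [map_sub, map_add] at h2
  linarith

/-- Layer cake. -/
lemma layer (Λ : StrongDual ℝ (J →ᵇ ℝ)) (C : Set J) (c : ℝ) (hc : ∀ D ⊆ C, Λ (ind D) ≤ c)
    (h : J →ᵇ ℝ) (h0 : ∀ x, 0 ≤ h x) (h1 : ∀ x, h x ≤ 1) (hC : ∀ x, x ∉ C → h x = 0) :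
    Λ h ≤ c := by
  have key : ∀ m : ℕ, Λ h ≤ c + ‖Λ‖ * (1 / ((m : ℝ) + 1)) := by
    intro m
    set M : ℝ := (m : ℝ) + 1 with hM
    have hMpos : 0 < M := by positivity
    set hm : J →ᵇ ℝ := (1 / M) • ∑ j ∈ Finset.range (m + 1), ind {x | (j : ℝ) < M * h x} with hhm
    have hsum : ∀ x, (∑ j ∈ Finset.range (m + 1), ind {x | (j : ℝ) < M * h x}) x
        = (⌈M * h x⌉₊ : ℝ) := by
      intro x
      have hle : ⌈M * h x⌉₊ ≤ m + 1 := by
        rw [Nat.ceil_le]; push_cast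
        calc M * h x ≤ M * 1 := by gcongr; exact h1 x
          _ = (m : ℝ) + 1 := by rw [mul_one]
      rw [BoundedContinuousFunction.coe_sum, Finset.sum_apply]
      rw [← Finset.sum_range_add_sum_Ico _ hle]
      rw [Finset.sum_eq_zero (s := Finset.Ico _ _), add_zero,
        Finset.sum_congr rfl (g := fun _ => (1 : ℝ))]
      · simp
      · intro j hj
        apply ind_mem
        exact Nat.lt_ceil.1 (Finset.mem_range.1 hj)
      · intro j hj
        apply ind_not_mem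
        have := (Finset.mem_Ico.1 hj).1
        simpa using Nat.ceil_le.1 this
    have hnorm : ‖h - hm‖ ≤ 1 / M := by
      refine norm_le_of_abs (by positivity) fun x => ?_
      have e1 : (h - hm) x = (1 / M) * (M * h x - (⌈M * h x⌉₊ : ℝ)) := by
        rw [BoundedContinuousFunction.sub_apply, hhm, BoundedContinuousFunction.smul_apply,
          hsum x, smul_eq_mul]
        field_simp
      rw [e1, abs_mul, abs_of_pos (by positivity : (0 : ℝ) < 1 / M)]
      have ha := Nat.le_ceil (M * h x)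
      have hb := Nat.ceil_lt_add_one (mul_nonneg hMpos.le (h0 x))
      have : |M * h x - (⌈M * h x⌉₊ : ℝ)| ≤ 1 := by rw [abs_le]; constructor <;> linarith
      calc 1 / M * |M * h x - (⌈M * h x⌉₊ : ℝ)| ≤ 1 / M * 1 := by gcongr
        _ = 1 / M := mul_one _
    have hΛ : Λ hm ≤ c := by
      rw [hhm, map_smul, map_sum, smul_eq_mul]
      have : ∑ j ∈ Finset.range (m + 1), Λ (ind {x | (j : ℝ) < M * h x}) ≤ M * c := by
        calc ∑ j ∈ Finset.range (m + 1), Λ (ind {x | (j : ℝ) < M * h x})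
            ≤ ∑ _j ∈ Finset.range (m + 1), c := by
              refine Finset.sum_le_sum fun j _ => hc _ fun x hx => ?_
              by_contra hxC
              have hx' : (j : ℝ) < M * h x := hx
              rw [hC x hxC, mul_zero] at hx'
              exact absurd hx' (not_lt.2 (Nat.cast_nonneg j))
          _ = M * c := by simp [hM]
      calc 1 / M * ∑ j ∈ Finset.range (m + 1), Λ (ind {x | (j : ℝ) < M * h x})
          ≤ 1 / M * (M * c) := by gcongr
        _ = c := by field_simp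
    have : Λ (h - hm) ≤ ‖Λ‖ * (1 / M) := by
      calc Λ (h - hm) ≤ ‖Λ (h - hm)‖ := le_abs_self _
        _ ≤ ‖Λ‖ * ‖h - hm‖ := Λ.le_opNorm _
        _ ≤ ‖Λ‖ * (1 / M) := by gcongr
    rw [map_sub] at this
    linarith
  have hlim : Tendsto (fun m : ℕ => c + ‖Λ‖ * (1 / ((m : ℝ) + 1))) atTop (𝓝 (c + ‖Λ‖ * 0)) :=
    tendsto_const_nhds.add (tendsto_one_div_add_atTop_nhds_zero_nat.const_mul _)
  simpa using ge_of_tendsto' hlim key

omit [DiscreteTopology J] in
/-- First moment by second moment. -/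
lemma Pos.abs_le {σ : StrongDual ℝ (J →ᵇ ℝ)} (hσ : Pos σ) (φ : J →ᵇ ℝ) {t : ℝ} (ht : 0 < t) :
    σ |φ| ≤ t * σ 1 + σ (φ * φ) / t := by
  have := hσ.mono (h := |φ|) (h' := t • (1 : J →ᵇ ℝ) + (1 / t) • (φ * φ)) (fun x => by
    have e1 : (|φ| : J →ᵇ ℝ) x = |φ x| := rfl
    have e2 : (t • (1 : J →ᵇ ℝ) + (1 / t) • (φ * φ)) x = t + |φ x| * |φ x| / t := by
      simp [abs_mul_abs_self]; field_simp
    rw [e1, e2]
    have h0 := abs_nonneg (φ x)
    have : |φ x| * t ≤ t * t + |φ x| * |φ x| := by nlinarith [sq_nonneg (|φ x| - t)]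
    calc |φ x| = |φ x| * t / t := by field_simp
      _ ≤ (t * t + |φ x| * |φ x|) / t := by gcongr
      _ = t + |φ x| * |φ x| / t := by field_simp)
  rw [map_add, map_smul, map_smul, smul_eq_mul, smul_eq_mul] at this
  calc σ |φ| ≤ t * σ 1 + 1 / t * σ (φ * φ) := this
    _ = t * σ 1 + σ (φ * φ) / t := by ring

end Bdd

section General

/-- Ultralimits of bounded sequences of functionals. -/
lemma exists_ulim {E : Type*} [NormedAddCommGroup E] [NormedSpace ℝ E] (U : Ultrafilter ℕ)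
    (μ : ℕ → StrongDual ℝ E) (C : ℝ) (h : ∀ n, ‖μ n‖ ≤ C) :
    ∃ σ : StrongDual ℝ E, ∀ x, Tendsto (fun n => μ n x) U (𝓝 (σ x)) := by
  have hc := WeakDual.isCompact_closedBall (𝕜 := ℝ) (E := E) 0 C
  obtain ⟨σ, -, hσ⟩ := hc.ultrafilter_le_nhds
    (U.map fun n => StrongDual.toWeakDual (μ n)) (by
      rw [Ultrafilter.coe_map, le_principal_iff, mem_map]
      exact univ_mem' fun n => by simpa using h n)
  refine ⟨WeakDual.toStrongDual σ, fun x => ?_⟩
  have h1 : Tendsto (fun n => StrongDual.toWeakDual (μ n)) U (𝓝 σ) := hσ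
  exact ((WeakDual.eval_continuous x).tendsto σ).comp h1

/-- Extremal value along convex hulls of tails. -/
lemma tail_extremal {V : Type*} [AddCommGroup V] [Module ℝ V] (x : ℕ → V) (p : V → ℝ)
    (hp0 : ∀ v, 0 ≤ p v) (C : ℝ) (hC : ∀ n, p (x n) ≤ C) :
    ∃ d : ℝ, (∀ e, 0 < e → ∃ N, ∀ v ∈ convexHull ℝ (x '' Set.Ici N), d - e ≤ p v) ∧
      (∀ e, 0 < e → ∀ N, ∃ v ∈ convexHull ℝ (x '' Set.Ici N), p v ≤ d + e) := by
  set dN : ℕ → ℝ := fun N => sInf (p '' convexHull ℝ (x '' Set.Ici N)) with hdN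
  have hmem : ∀ N, x N ∈ convexHull ℝ (x '' Set.Ici N) := fun N =>
    subset_convexHull ℝ _ ⟨N, Set.mem_Ici.2 le_rfl, rfl⟩
  have hbdd : ∀ N, BddBelow (p '' convexHull ℝ (x '' Set.Ici N)) := fun N =>
    ⟨0, by rintro _ ⟨v, -, rfl⟩; exact hp0 v⟩
  have hle : ∀ N, dN N ≤ C := fun N => (csInf_le (hbdd N) ⟨x N, hmem N, rfl⟩).trans (hC N)
  have hba : BddAbove (Set.range dN) := ⟨C, by rintro _ ⟨N, rfl⟩; exact hle N⟩
  refine ⟨⨆ N, dN N, fun e he => ?_, fun e he N => ?_⟩
  · obtain ⟨N, hN⟩ := exists_lt_of_lt_ciSup (show (⨆ N, dN N) - e < ⨆ N, dN N by linarith)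
    exact ⟨N, fun v hv => hN.le.trans (csInf_le (hbdd N) ⟨v, hv, rfl⟩)⟩
  · have h1 : dN N < (⨆ N, dN N) + e := by linarith [le_ciSup hba N]
    obtain ⟨_, ⟨v, hv, rfl⟩, h2⟩ := exists_lt_of_csInf_lt
      (s := p '' convexHull ℝ (x '' Set.Ici N)) ⟨p (x N), x N, hmem N, rfl⟩ h1
    exact ⟨v, hv, h2.le⟩

lemma tail_mono {V : Type*} [AddCommGroup V] [Module ℝ V] (x : ℕ → V) {N M : ℕ} (h : N ≤ M) :
    convexHull ℝ (x '' Set.Ici M) ⊆ convexHull ℝ (x '' Set.Ici N) :=
  convexHull_mono (Set.image_mono (Set.Ici_subset_Ici.2 h))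

/-- A weak Komlós lemma for a quadratic form. -/
lemma komlos_lite {V : Type*} [AddCommGroup V] [Module ℝ V] (x : ℕ → V) (q : V → ℝ)
    (hq0 : ∀ v, 0 ≤ q v) (C : ℝ) (hC : ∀ n, q (x n) ≤ C)
    (hpar : ∀ u v, q (u - v) = 2 * q u + 2 * q v - 4 * q ((1 / 2 : ℝ) • u + (1 / 2 : ℝ) • v))
    {e : ℝ} (he : 0 < e) :
    ∃ u ∈ convexHull ℝ (x '' Set.Ici 0), ∀ M, ∃ v ∈ convexHull ℝ (x '' Set.Ici M),
      q (u - v) ≤ e := by
  obtain ⟨d, h1, h2⟩ := tail_extremal x q hq0 C hC
  obtain ⟨N, hN⟩ := h1 (e / 8) (by positivity)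
  obtain ⟨u, hu, hqu⟩ := h2 (e / 8) (by positivity) N
  refine ⟨u, tail_mono x (Nat.zero_le N) hu, fun M => ?_⟩
  obtain ⟨v, hv, hqv⟩ := h2 (e / 8) (by positivity) (max N M)
  refine ⟨v, tail_mono x (le_max_right N M) hv, ?_⟩
  have hmid := hN _ ((convex_convexHull ℝ _) hu (tail_mono x (le_max_left N M) hv)
    (a := 1 / 2) (b := 1 / 2) (by norm_num) (by norm_num) (by norm_num))
  rw [hpar]
  linarith

/-- Choice of signs for a quadratic form. -/
lemma exists_signs {V : Type*} [AddCommGroup V] [Module ℝ V] (x : ℕ → V) (q : V → ℝ)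
    (hq0 : q 0 = 0) (hpar : ∀ u v, q (u + v) + q (u - v) = 2 * q u + 2 * q v) (L : ℕ) :
    ∃ θ : ℕ → Bool, q (∑ l ∈ Finset.range L, (if θ l then (1 : ℝ) else -1) • x l)
      ≤ ∑ l ∈ Finset.range L, q (x l) := by
  induction L with
  | zero => exact ⟨fun _ => true, by simp [hq0]⟩
  | succ L ih =>
    obtain ⟨θ, hθ⟩ := ih
    set s := ∑ l ∈ Finset.range L, (if θ l then (1 : ℝ) else -1) • x l with hs
    have key : ∀ b : Bool, ∑ l ∈ Finset.range (L + 1),
        (if Function.update θ L b l then (1 : ℝ) else -1) • x l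
          = s + (if b then (1 : ℝ) else -1) • x L := by
      intro b
      rw [Finset.sum_range_succ, Function.update_self, hs]
      congr 1
      refine Finset.sum_congr rfl fun l hl => ?_
      rw [Function.update_of_ne (Finset.mem_range.1 hl).ne]
    have := hpar s (x L)
    by_cases hc : q (s + x L) ≤ q s + q (x L)
    · refine ⟨Function.update θ L true, ?_⟩
      rw [key, Finset.sum_range_succ]
      simp only [if_true, one_smul]
      linarith
    · refine ⟨Function.update θ L false, ?_⟩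
      rw [key, Finset.sum_range_succ]
      simp only [Bool.false_eq_true, if_false, neg_smul, one_smul, ← sub_eq_add_neg]
      linarith

/-- Finite minimax lemma. -/
lemma minimax {E : Type*} [NormedAddCommGroup E] [NormedSpace ℝ E] {ι : Type} [Fintype ι]
    (G : ι → StrongDual ℝ E) {a a' : ℝ} (ha : a' < a) (ha0 : 0 ≤ a')
    (hG : ∀ F ∈ convexHull ℝ (Set.range G), a ≤ ‖F‖) :
    ∃ f : E, ‖f‖ ≤ 1 ∧ ∀ i, a' < G i f := by
  classical
  by_contra hcon
  push Not at hcon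
  set T : E →L[ℝ] (ι → ℝ) := ContinuousLinearMap.pi G with hT
  set O : Set (ι → ℝ) := Set.pi Set.univ fun _ => Set.Ioi a' with hO
  have hOc : Convex ℝ O := convex_pi fun _ _ => convex_Ioi a'
  have hOo : IsOpen O := isOpen_set_pi Set.finite_univ fun _ _ => isOpen_Ioi
  have hSc : Convex ℝ (T '' Metric.closedBall 0 1) :=
    (convex_closedBall 0 1).linear_image T.toLinearMap
  have hdisj : Disjoint O (T '' Metric.closedBall 0 1) := by
    rw [Set.disjoint_left]
    rintro _ hy ⟨f, hf, rfl⟩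
    obtain ⟨i, hi⟩ := hcon f (by simpa using hf)
    have := hy i (Set.mem_univ i)
    exact absurd this (not_lt.2 hi)
  obtain ⟨l, u, hl1, hl2⟩ := geometric_hahn_banach_open hOc hOo hSc hdisj
  set w : ι → ℝ := fun i => - l (Pi.single i 1) with hw
  have hl : ∀ y : ι → ℝ, l y = - ∑ i, w i * y i := by
    intro y
    conv_lhs => rw [pi_eq_sum_univ' y]
    rw [map_sum, ← Finset.sum_neg_distrib]
    refine Finset.sum_congr rfl fun i _ => ?_
    rw [map_smul, smul_eq_mul, hw]; ring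
  have hu0 : u ≤ 0 := by
    have := hl2 0 ⟨0, by simp, by simp⟩
    simpa using this
  have hw0 : ∀ i, 0 ≤ w i := by
    intro i
    by_contra hneg
    push Not at hneg
    set S : ℝ := ∑ j, w j * (a' + 1) with hS
    set t : ℝ := (|S| + |u|) / (-w i) with ht
    have ht0 : 0 ≤ t := div_nonneg (by positivity) (by linarith)
    have hmem : ((fun _ => a' + 1) + t • Pi.single i (1 : ℝ) : ι → ℝ) ∈ O := by
      intro j _
      have : (0 : ℝ) ≤ (Pi.single i (1 : ℝ) : ι → ℝ) j := by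
        rw [Pi.single_apply]; split_ifs <;> norm_num
      simp only [Set.mem_Ioi, Pi.add_apply, Pi.smul_apply, smul_eq_mul]
      nlinarith [mul_nonneg ht0 this]
    have h1 := hl1 _ hmem
    rw [map_add, map_smul, smul_eq_mul, hl] at h1
    have h2 : l (Pi.single i 1) = - w i := by simp [hw]
    have h3 : t * (- w i) = |S| + |u| := by
      rw [ht]; exact div_mul_cancel₀ _ (by linarith)
    rw [h2, h3] at h1
    linarith [le_abs_self S, le_abs_self u, abs_nonneg u]
  set S : ℝ := ∑ i, w i with hS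
  have hSu : ∀ r, a' < r → - (S * r) < u := by
    intro r hr
    have := hl1 (fun _ => r) (fun j _ => hr)
    rw [hl, ← Finset.sum_mul] at this
    exact this
  have hSpos : 0 < S := by
    have h1 := hSu (a' + 1) (by linarith)
    have h0 : 0 ≤ S := Finset.sum_nonneg fun i _ => hw0 i
    rcases h0.lt_or_eq with h | h
    · exact h
    · rw [← h] at h1; simp at h1; linarith
  set F : StrongDual ℝ E := ∑ i, (w i / S) • G i with hF
  have hFmem : F ∈ convexHull ℝ (Set.range G) := by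
    refine (convex_convexHull ℝ _).sum_mem (fun i _ => div_nonneg (hw0 i) hSpos.le) ?_
      fun i _ => subset_convexHull ℝ _ ⟨i, rfl⟩
    rw [← Finset.sum_div]; exact div_self hSpos.ne'
  have hFf : ∀ f : E, ‖f‖ ≤ 1 → F f ≤ (a + a') / 2 := by
    intro f hf
    have h1 := hl2 (T f) ⟨f, by simpa using hf, rfl⟩
    rw [hl] at h1
    have h2 := hSu ((a + a') / 2) (by linarith)
    have h3 : F f = (∑ i, w i * T f i) / S := by
      rw [hF, _root_.sum_apply, Finset.sum_div]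
      refine Finset.sum_congr rfl fun i _ => ?_
      simp [hT]; ring
    rw [h3, div_le_iff₀ hSpos]
    linarith
  have hFn : ‖F‖ ≤ (a + a') / 2 := by
    refine ContinuousLinearMap.opNorm_le_of_unit_norm (by linarith) fun f hf => ?_
    rw [Real.norm_eq_abs, abs_le]
    refine ⟨?_, hFf f hf.le⟩
    have := hFf (-f) (by simpa using hf.le)
    rw [map_neg] at this
    linarith
  linarith [hG F hFmem]

end General

end Pool.Agent.Lib.MP_f0fee1_an
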