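import Pool.Agent.Lib.MP_f0fee1_an.Tree

/-! Passing the Orlicz type property to the bidual; copies of `c₀` and of `ℓ¹`. -/

open Filter Topology
open scoped BigOperators ZeroAtInfty

namespace Pool.Agent.Lib.MP_f0fee1_an

lemma expect_rd_mul {N : ℕ} (j k : Fin N) :
    𝔼 t : Fin N → Bool, rd (t j) * rd (t k) = if j = k then 1 else 0 := by
  classical
  split_ifs with h
  · subst h
    simp only [← sq, rd_sq]
    exact Fintype.expect_const _
  · have := expect_prod (fun (l : Fin N) b =>
      (if l = j then rd b else (1 : ℝ)) * (if l = k then rd b else 1))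
    simp only [Finset.prod_mul_distrib, Finset.prod_ite_eq', Finset.mem_univ, if_true] at this
    rw [this]
    exact Finset.prod_eq_zero (Finset.mem_univ j) (by simp [rd, h])

section

variable {X : Type} [NormedAddCommGroup X] [NormedSpace ℝ X]

/-- Sign sums. -/
noncomputable def sgnSum (X : Type) [NormedAddCommGroup X] [NormedSpace ℝ X] (N : ℕ) :
    (Fin N → X) →ₗ[ℝ] ((Fin N → Bool) → X) where
  toFun x θ := ∑ j, rd (θ j) • x j
  map_add' x y := by ext θ; simp [Finset.sum_add_distrib]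
  map_smul' c x := by
    ext θ
    simp only [Pi.smul_apply, RingHom.id_apply, Finset.smul_sum]
    exact Finset.sum_congr rfl fun j _ => smul_comm _ _ _

/-- The space of tuples normed by the largest sign sum. -/
def EE (X : Type) [NormedAddCommGroup X] [NormedSpace ℝ X] (N : ℕ) : Type :=
  LinearMap.range (sgnSum X N)

noncomputable instance (N : ℕ) : NormedAddCommGroup (EE X N) :=
  inferInstanceAs (NormedAddCommGroup (LinearMap.range (sgnSum X N)))

noncomputable instance (N : ℕ) : NormedSpace ℝ (EE X N) :=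
  inferInstanceAs (NormedSpace ℝ (LinearMap.range (sgnSum X N)))

/-- The inclusion. -/
noncomputable def eIncl (X : Type) [NormedAddCommGroup X] [NormedSpace ℝ X] (N : ℕ) :
    EE X N →ₗᵢ[ℝ] ((Fin N → Bool) → X) := (LinearMap.range (sgnSum X N)).subtypeₗᵢ

lemma sgnSum_single {N : ℕ} (j : Fin N) (x : X) (θ : Fin N → Bool) :
    sgnSum X N (Pi.single j x) θ = rd (θ j) • x := by
  change ∑ k, rd (θ k) • (Pi.single j x : Fin N → X) k = _
  rw [Finset.sum_eq_single j]
  · simp
  · intro k _ hk; simp [hk]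
  · simp

/-- The coordinate embeddings. -/
noncomputable def eSingle (X : Type) [NormedAddCommGroup X] [NormedSpace ℝ X] {N : ℕ}
    (j : Fin N) : X →L[ℝ] EE X N :=
  LinearMap.mkContinuous
    ((sgnSum X N).rangeRestrict.comp (LinearMap.single ℝ (fun _ => X) j)) 1 fun x => by
      rw [← (eIncl X N).norm_map, one_mul]
      refine (pi_norm_le_iff_of_nonneg (norm_nonneg _)).2 fun θ => ?_
      change ‖sgnSum X N (Pi.single j x) θ‖ ≤ _
      rw [sgnSum_single, norm_smul, Real.norm_eq_abs, abs_rd, one_mul]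

lemma eIncl_eSingle {N : ℕ} (j : Fin N) (x : X) (θ : Fin N → Bool) :
    eIncl X N (eSingle X j x) θ = rd (θ j) • x := sgnSum_single j x θ

lemma sum_norm_single_le {ι : Type} [Fintype ι] [DecidableEq ι] (H : StrongDual ℝ (ι → X)) :
    ∑ θ, ‖H.comp (ContinuousLinearMap.single ℝ (fun _ => X) θ)‖ ≤ ‖H‖ := by
  refine le_of_forall_pos_le_add fun e he => ?_
  have he' : 0 < e / (Fintype.card ι + 1) := by positivity
  choose x hx1 hx2 using fun θ =>
    exists_almost_norming (H.comp (ContinuousLinearMap.single ℝ (fun _ => X) θ)) he'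
  have h1 : H x ≤ ‖H‖ := by
    refine (le_abs_self _).trans ((H.le_opNorm x).trans ?_)
    exact mul_le_of_le_one_right (norm_nonneg _) ((pi_norm_le_iff_of_nonneg zero_le_one).2 hx1)
  have h2 : H x = ∑ θ, H (Pi.single θ (x θ)) := by
    rw [← map_sum, Finset.univ_sum_single]
  have h3 := Finset.sum_le_sum fun θ (_ : θ ∈ Finset.univ) => hx2 θ
  rw [Finset.sum_sub_distrib, Finset.sum_const, Finset.card_univ, nsmul_eq_mul] at h3
  have h4 : (Fintype.card ι : ℝ) * (e / (Fintype.card ι + 1)) ≤ e := by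
    rw [← mul_div_assoc, div_le_iff₀ (by positivity)]; nlinarith
  have h5 : ∑ θ, (H.comp (ContinuousLinearMap.single ℝ (fun _ => X) θ)) (x θ) = H x := h2.symm
  linarith

theorem orlicz_bidual {K : ℝ} (hK : 0 ≤ K)
    (hX : ∀ (N : ℕ) (f : Fin N → X) (c C : ℝ), 0 < c → (∀ j, c ≤ ‖f j‖) →
      (∀ θ : Fin N → Bool, ‖∑ j, rd (θ j) • f j‖ ≤ C) → c * √N ≤ K * C)
    (N : ℕ) (Θ : Fin N → StrongDual ℝ (StrongDual ℝ X)) {c C : ℝ} (hc : 0 < c)
    (hΘ : ∀ j, c ≤ ‖Θ j‖) (hC : ∀ θ : Fin N → Bool, ‖∑ j, rd (θ j) • Θ j‖ ≤ C) :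
    c * √N ≤ 4 * K * C := by
  classical
  have hC0 : 0 ≤ C := (ContinuousLinearMap.opNorm_nonneg _).trans (hC fun _ => true)
  rcases Nat.eq_zero_or_pos N with rfl | hN
  · simp only [Nat.cast_zero, Real.sqrt_zero, mul_zero]; positivity
  choose F hF1 hF2 using fun j => exists_almost_norming (Θ j) (half_pos hc)
  set M : ℝ := (Fintype.card (Fin N → Bool) : ℝ) with hM
  set avg : Fin N → EE X N →L[ℝ] X := fun j =>
    ((1 / M) • ∑ θ : Fin N → Bool, rd (θ j) • ContinuousLinearMap.proj (R := ℝ)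
      (φ := fun _ : Fin N → Bool => X) θ).comp (eIncl X N).toContinuousLinearMap with havg
  have havg1 : ∀ j y, avg j y = (1 / M) • ∑ θ : Fin N → Bool, rd (θ j) • eIncl X N y θ := by
    intro j y
    simp [havg]
  have havg2 : ∀ j (y : EE X N) (x : Fin N → X), eIncl X N y = sgnSum X N x → avg j y = x j := by
    intro j y x hy
    rw [havg1, hy]
    change (1 / M) • ∑ θ : Fin N → Bool, rd (θ j) • ∑ k, rd (θ k) • x k = x j
    simp only [Finset.smul_sum, smul_smul]
    rw [Finset.sum_comm]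
    have : ∀ k, ∑ θ : Fin N → Bool, (1 / M * (rd (θ j) * rd (θ k))) • x k
        = (if j = k then (1 : ℝ) else 0) • x k := by
      intro k
      rw [← Finset.sum_smul, ← expect_rd_mul, Fintype.expect_eq_sum_div_card, ← Finset.mul_sum]
      congr 1
      rw [hM]; ring
    simp only [this]
    simp
  set G : Fin N → StrongDual ℝ (EE X N) := fun j => (F j).comp (avg j) with hG
  set L : StrongDual ℝ (EE X N) → ℝ := fun H => ∑ j, Θ j (H.comp (eSingle X j)) with hL
  have hL1 : ∀ H, L H ≤ C * ‖H‖ := by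
    intro H
    obtain ⟨H', h1, h2⟩ := exists_ext (eIncl X N) H
    have e1 : ∀ j, H.comp (eSingle X j) = ∑ θ : Fin N → Bool,
        rd (θ j) • H'.comp (ContinuousLinearMap.single ℝ (fun _ => X) θ) := by
      intro j
      ext x
      rw [ContinuousLinearMap.comp_apply, ← h1, _root_.sum_apply,
        ← Finset.univ_sum_single (eIncl X N (eSingle X j x)), map_sum]
      refine Finset.sum_congr rfl fun θ _ => ?_
      rw [eIncl_eSingle, Pi.single_smul, map_smul]
      rfl
    calc L H = ∑ θ : Fin N → Bool, (∑ j, rd (θ j) • Θ j)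
          (H'.comp (ContinuousLinearMap.single ℝ (fun _ => X) θ)) := by
          simp only [hL, e1, map_sum, map_smul, _root_.sum_apply,
            _root_.smul_apply]
          exact Finset.sum_comm
      _ ≤ ∑ θ : Fin N → Bool, C * ‖H'.comp (ContinuousLinearMap.single ℝ (fun _ => X) θ)‖ := by
          refine Finset.sum_le_sum fun θ _ => ?_
          refine (le_abs_self _).trans (((∑ j, rd (θ j) • Θ j).le_opNorm
            (H'.comp (ContinuousLinearMap.single ℝ (fun _ => X) θ))).trans ?_)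
          gcongr
          exact hC θ
      _ ≤ C * ‖H‖ := by
          rw [← Finset.mul_sum, ← h2]
          gcongr
          exact sum_norm_single_le H'
  have hL2 : ∀ k, c / 2 ≤ L (G k) := by
    intro k
    have e1 : ∀ j, (G k).comp (eSingle X j) = if j = k then F k else 0 := by
      intro j
      ext x
      have := havg2 k (eSingle X j x) (Pi.single j x) rfl
      simp only [hG, ContinuousLinearMap.comp_apply, this]
      split_ifs with h
      · subst h; simp
      · simp [Ne.symm h]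
    have e2 : L (G k) = Θ k (F k) := by
      simp only [hL, e1]
      rw [Finset.sum_eq_single k]
      · simp
      · intro j _ hj; simp [hj]
      · simp
    linarith [hF2 k, hΘ k]
  have hLlin : IsLinearMap ℝ L := by
    refine ⟨fun H H' => ?_, fun r H => ?_⟩
    · simp only [hL, ContinuousLinearMap.add_comp, map_add, Finset.sum_add_distrib]
    · simp only [hL, ContinuousLinearMap.smul_comp, map_smul, Finset.smul_sum]
  have hL3 : ∀ H ∈ convexHull ℝ (Set.range G), c / 2 ≤ C * ‖H‖ := fun H hH =>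
    (convexHull_min (t := {H | c / 2 ≤ L H}) (by rintro _ ⟨k, rfl⟩; exact hL2 k)
      (convex_halfSpace_ge hLlin _) hH).trans (hL1 H)
  have hCpos : 0 < C := by
    rcases hC0.lt_or_eq with h | h
    · exact h
    · have := hL3 (G ⟨0, hN⟩) (subset_convexHull ℝ _ ⟨_, rfl⟩)
      rw [← h] at this
      linarith
  obtain ⟨y, hy1, hy2⟩ := minimax G (a := c / (2 * C)) (a' := c / (4 * C))
    (by gcongr; norm_num) (by positivity) fun H hH => by
      rw [div_le_iff₀ (by positivity)]
      linarith [hL3 H hH]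
  obtain ⟨x, hx⟩ := y.2
  have hx' : eIncl X N y = sgnSum X N x := hx.symm
  have h1 := hX N x (c / (4 * C)) 1 (by positivity) (fun j => by
    have h2 : G j y = F j (x j) := by
      simp only [hG, ContinuousLinearMap.comp_apply, havg2 j y x hx']
    have h3 : F j (x j) ≤ ‖x j‖ := by
      refine (le_abs_self _).trans (((F j).le_opNorm _).trans ?_)
      exact mul_le_of_le_one_left (norm_nonneg _) (hF1 j)
    linarith [hy2 j]) (fun θ => by
    have h2 := norm_le_pi_norm (eIncl X N y) θ
    rw [(eIncl X N).norm_map, hx'] at h2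
    exact h2.trans hy1)
  rw [div_mul_eq_mul_div, div_le_iff₀ (by positivity)] at h1
  linarith

end

theorem XX_orlicz_bidual (N : ℕ) (Θ : Fin N → StrongDual ℝ (StrongDual ℝ XX)) {c C : ℝ}
    (hc : 0 < c) (hΘ : ∀ j, c ≤ ‖Θ j‖) (hC : ∀ θ : Fin N → Bool, ‖∑ j, rd (θ j) • Θ j‖ ≤ C) :
    c * √N ≤ 800 * C := by
  have := orlicz_bidual (K := 200) (by norm_num)
    (fun N f c C hc hf hC => XX_orlicz N f hc hf hC) N Θ hc hΘ hC
  linarith

lemma not_sqrt_bounded {c D : ℝ} (hc : 0 < c) (h : ∀ N : ℕ, c * √N ≤ D) : False := by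
  obtain ⟨m, hm⟩ := exists_nat_gt (D / c)
  have := h (m ^ 2)
  rw [Nat.cast_pow, Real.sqrt_sq (Nat.cast_nonneg m)] at this
  rw [div_lt_iff₀ hc] at hm
  linarith

theorem XX_no_linf (N : ℕ) (T : (Fin N → ℝ) →ₗ[ℝ] StrongDual ℝ (StrongDual ℝ XX)) (C : ℝ)
    (hC : 0 ≤ C) (hT : ∀ y, ‖y‖ ≤ ‖T y‖ ∧ ‖T y‖ ≤ C * ‖y‖) : √N ≤ 800 * C := by
  have := XX_orlicz_bidual N (fun j => T (Pi.single j 1)) (c := 1) (C := C) one_pos
    (fun j => by simpa [Pi.norm_single] using (hT (Pi.single j 1)).1) (fun θ => by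
      simp only [← map_smul, ← map_sum]
      refine (hT _).2.trans (mul_le_of_le_one_right hC ?_)
      refine (pi_norm_le_iff_of_nonneg zero_le_one).2 fun k => ?_
      simp [Pi.single_apply, abs_rd])
  linarith

/-- The unit vectors of `c₀`. -/
noncomputable def ec (j : ℕ) : C₀(ℕ, ℝ) where
  toFun := Pi.single j 1
  continuous_toFun := continuous_of_discreteTopology
  zero_at_infty' := by
    rw [Filter.cocompact_eq_cofinite]
    refine tendsto_const_nhds.congr' ?_
    filter_upwards [Filter.eventually_cofinite_ne j] with k hk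
    simp [hk]

lemma c0_sum_apply {ι : Type} (s : Finset ι) (f : ι → C₀(ℕ, ℝ)) (k : ℕ) :
    (∑ j ∈ s, f j) k = ∑ j ∈ s, f j k := by
  classical
  induction s using Finset.induction_on with
  | empty => simp
  | insert a s ha ih => simp [Finset.sum_insert ha, ih]

lemma abs_sum_single_le {N : ℕ} (θ : Fin N → Bool) (k : ℕ) :
    |∑ j : Fin N, rd (θ j) * (Pi.single (j : ℕ) (1 : ℝ) : ℕ → ℝ) k| ≤ 1 := by
  by_cases hk : k < N
  · rw [Finset.sum_eq_single ⟨k, hk⟩]
    · simp [abs_rd]
    · intro j _ hj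
      have : k ≠ j := fun h => hj (Fin.ext h.symm)
      simp [this]
    · simp
  · rw [Finset.sum_eq_zero]
    · simp
    · intro j _
      have : k ≠ j := fun h => hk (h ▸ j.2)
      simp [this]

theorem XX_no_c0 : ¬ ∃ (T : C₀(ℕ, ℝ) →L[ℝ] XX) (c : ℝ), 0 < c ∧ ∀ y, c * ‖y‖ ≤ ‖T y‖ := by
  rintro ⟨T, c, hc, hT⟩
  refine not_sqrt_bounded hc (D := 200 * ‖T‖) fun N => ?_
  refine XX_orlicz N (fun j => T (ec j)) hc (fun j => le_trans ?_ (hT _)) fun θ => ?_
  · refine le_mul_of_one_le_right hc.le ?_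
    have := (ec j).toBCF.norm_coe_le_norm j
    rw [ZeroAtInftyContinuousMap.norm_toBCF_eq_norm] at this
    refine le_trans (le_of_eq ?_) this
    change (1 : ℝ) = ‖(Pi.single (j : ℕ) (1 : ℝ) : ℕ → ℝ) j‖
    simp
  · simp only [← map_smul, ← map_sum]
    refine (T.le_opNorm _).trans (mul_le_of_le_one_right (norm_nonneg _) ?_)
    rw [← ZeroAtInftyContinuousMap.norm_toBCF_eq_norm]
    refine norm_le_of_abs zero_le_one fun k => ?_
    change |(∑ j : Fin N, rd (θ j) • ec j) k| ≤ 1
    rw [c0_sum_apply]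
    exact abs_sum_single_le θ k

theorem XX_no_l1 : ¬ ∃ (S : lp (fun _ : ℕ => ℝ) 1 →L[ℝ] StrongDual ℝ XX)
    (R : StrongDual ℝ XX →L[ℝ] lp (fun _ : ℕ => ℝ) 1), ∀ a, R (S a) = a := by
  rintro ⟨S, R, h⟩
  have hb : ∀ (N : ℕ) (θ : Fin N → ℝ), (∀ j, |θ j| ≤ 1) → ∀ a : lp (fun _ : ℕ => ℝ) 1,
      |∑ j : Fin N, θ j * a j| ≤ ‖a‖ := by
    intro N θ hθ a
    have h1 := lp.sum_rpow_le_norm_rpow (p := 1) (by simp) a (Finset.range N)
    simp only [ENNReal.toReal_one, Real.rpow_one] at h1
    refine (Finset.abs_sum_le_sum_abs _ _).trans (le_trans ?_ h1)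
    rw [Finset.sum_range]
    refine Finset.sum_le_sum fun j _ => ?_
    rw [abs_mul]
    exact mul_le_of_le_one_left (abs_nonneg _) (hθ j)
  set co : ℕ → StrongDual ℝ (lp (fun _ : ℕ => ℝ) 1) := fun j =>
    LinearMap.mkContinuous
      { toFun := fun a => a j, map_add' := fun _ _ => rfl, map_smul' := fun _ _ => rfl } 1
      (fun a => by simpa using lp.norm_apply_le_norm one_ne_zero a j) with hco
  have hco1 : ∀ j a, co j a = a j := fun j a => rfl
  refine not_sqrt_bounded (c := 1 / (‖S‖ + 1)) (by positivity) (D := 800 * ‖R‖) fun N => ?_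
  refine XX_orlicz_bidual N (fun j => (co j).comp R) (by positivity) (fun j => ?_) fun θ => ?_
  · have h1 := ((co j).comp R).le_opNorm (S (lp.single 1 j 1))
    have h2 := S.le_opNorm (lp.single 1 j 1)
    rw [lp.norm_single (by norm_num), norm_one, mul_one] at h2
    rw [ContinuousLinearMap.comp_apply, h, hco1, lp.single_apply_self, norm_one] at h1
    rw [div_le_iff₀ (by positivity)]
    nlinarith [norm_nonneg ((co j).comp R), norm_nonneg (S (lp.single 1 j 1))]
  · refine ContinuousLinearMap.opNorm_le_bound _ (ContinuousLinearMap.opNorm_nonneg _) fun F => ?_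
    refine le_trans ?_ (R.le_opNorm F)
    have := hb N (fun j => rd (θ j)) (fun j => (abs_rd _).le) (R F)
    simpa [_root_.sum_apply, hco1] using this

end Pool.Agent.Lib.MP_f0fee1_an
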