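import Mathlib

/-! Textbook notions of Banach space theory used in the statement. -/

open Filter Topology

namespace Pool.Agent.Lib.MP_f0fee1_an

/-- Every weak-star convergent sequence in the dual converges weakly. -/
def IsGrothendieck (E : Type) [NormedAddCommGroup E] [NormedSpace ℝ E] : Prop :=
  ∀ (φ : ℕ → StrongDual ℝ E) (ψ : StrongDual ℝ E),
    (∀ x : E, Tendsto (fun n => φ n x) atTop (𝓝 (ψ x))) →
    ∀ Θ : StrongDual ℝ (StrongDual ℝ E), Tendsto (fun n => Θ (φ n)) atTop (𝓝 (Θ ψ))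

/-- The canonical map into the bidual is onto. -/
def IsReflexiveSpace (E : Type) [NormedAddCommGroup E] [NormedSpace ℝ E] : Prop :=
  Function.Surjective (NormedSpace.inclusionInDoubleDual ℝ E)

/-- `F` contains an isomorphic copy of `E`. -/
def ContainsCopy (F E : Type) [NormedAddCommGroup F] [NormedSpace ℝ F] [NormedAddCommGroup E]
    [NormedSpace ℝ E] : Prop :=
  ∃ (T : E →L[ℝ] F) (c : ℝ), 0 < c ∧ ∀ y : E, c * ‖y‖ ≤ ‖T y‖

/-- `F` contains a complemented isomorphic copy of `E`. -/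
def ContainsComplementedCopy (F E : Type) [NormedAddCommGroup F] [NormedSpace ℝ F]
    [NormedAddCommGroup E] [NormedSpace ℝ E] : Prop :=
  ∃ (S : E →L[ℝ] F) (R : F →L[ℝ] E), ∀ y : E, R (S y) = y

/-- `F` contains the spaces `ℓ∞^N` uniformly. -/
def ContainsLinfUniformly (F : Type) [NormedAddCommGroup F] [NormedSpace ℝ F] : Prop :=
  ∃ C : ℝ, ∀ N : ℕ, ∃ T : (Fin N → ℝ) →L[ℝ] F, ∀ y : Fin N → ℝ, ‖y‖ ≤ ‖T y‖ ∧ ‖T y‖ ≤ C * ‖y‖

end Pool.Agent.Lib.MP_f0fee1_an
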