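import Pool.Agent.Lib.MP_f0fee1_an.Basic

/-! The splitting lemma: almost disjoint singular parts, sparse inside every node. -/

open BoundedContinuousFunction Filter Topology
open scoped BigOperators

namespace Pool.Agent.Lib.MP_f0fee1_an

/-- Disjoint union of finite nodes. -/
def Pt (G : ℕ → Type) : Type := Σ i, G i

instance (G : ℕ → Type) : TopologicalSpace (Pt G) := ⊥

instance (G : ℕ → Type) : DiscreteTopology (Pt G) := ⟨rfl⟩

/-- The point `t` of the node `i`. -/
def pt {G : ℕ → Type} (i : ℕ) (t : G i) : Pt G := ⟨i, t⟩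

/-- The node of a point. -/
def nd {G : ℕ → Type} (x : Pt G) : ℕ := x.1

variable {G : ℕ → Type} [∀ i, Fintype (G i)] [∀ i, Nonempty (G i)]

/-- The average over a node. -/
noncomputable def av (i : ℕ) (h : Pt G →ᵇ ℝ) : ℝ := 𝔼 t : G i, h (pt i t)

lemma abs_av_le (i : ℕ) (h : Pt G →ᵇ ℝ) : |av i h| ≤ ‖h‖ :=
  (Finset.abs_expect_le _ _).trans
    (Finset.expect_le Finset.univ_nonempty fun _ _ => abs_le_norm h _)

omit [∀ i, Nonempty (G i)] in
lemma av_nonneg (i : ℕ) {h : Pt G →ᵇ ℝ} (hh : ∀ x, 0 ≤ h x) : 0 ≤ av i h :=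
  Finset.expect_nonneg fun _ _ => hh _

/-- The averaging operator. -/
noncomputable def Ev : (Pt G →ᵇ ℝ) →L[ℝ] (Pt G →ᵇ ℝ) :=
  LinearMap.mkContinuous
    { toFun := fun h => mk (fun x => av (nd x) h) ‖h‖ (fun x => abs_av_le _ h)
      map_add' := fun h h' => by
        ext x; simp [av, Finset.expect_add_distrib]
      map_smul' := fun c h => by
        ext x; simp [av, Finset.mul_expect] } 1
    (fun h => by
      rw [one_mul]
      exact norm_le_of_abs (norm_nonneg _) fun x => abs_av_le _ h)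

lemma Ev_apply (h : Pt G →ᵇ ℝ) (x : Pt G) : Ev h x = av (nd x) h := rfl

theorem extract (μ : ℕ → StrongDual ℝ (Pt G →ᵇ ℝ)) (g : ℕ → Pt G →ᵇ ℝ)
    (hμ : ∀ n, ‖μ n‖ ≤ 2) (hg : ∀ n, ‖g n‖ ≤ 1)
    (hμg : ∀ n, ‖μ n‖ - 1 / ((n : ℝ) + 1) ≤ μ n (g n)) {ε δ : ℝ} (hε : 0 < ε) (hδ : 0 < δ) :
    ∃ (σ : StrongDual ℝ (Pt G →ᵇ ℝ)) (T : ℝ) (n : ℕ → ℕ) (A : ℕ → Set (Pt G)),
      Pos σ ∧ 0 ≤ T ∧ StrictMono n ∧ (∀ k l, k < l → Disjoint (A k) (A l)) ∧
      (∀ k, ‖μ (n k)‖ - ε ≤ μ (n k) (g (n k))) ∧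
      (∀ k (φ : Pt G →ᵇ ℝ), ‖φ‖ ≤ 1 → μ (n k) (φ * ind (A k)ᶜ) ≤ T * σ |φ| + 5 * ε) ∧
      (∀ i, ∃ j, av i (ind {x | ∃ k, k ≠ j ∧ x ∈ A k}) ≤ δ) := by
  classical
  set U : Ultrafilter ℕ := hyperfilter ℕ with hU
  have hUle : (U : Filter ℕ) ≤ atTop := Nat.hyperfilter_le_atTop
  set ν : ℕ → StrongDual ℝ (Pt G →ᵇ ℝ) :=
    fun n => (μ n).comp (ContinuousLinearMap.mul ℝ _ (g n)) with hνdef
  have hν : ∀ n h, ν n h = μ n (g n * h) := fun n h => rfl
  have hνn : ∀ n, ‖ν n‖ ≤ 2 := fun n => by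
    calc ‖ν n‖ ≤ ‖μ n‖ * ‖ContinuousLinearMap.mul ℝ _ (g n)‖ :=
          ContinuousLinearMap.opNorm_comp_le _ _
      _ ≤ 2 * 1 := by
          gcongr
          · exact hμ n
          · exact (ContinuousLinearMap.opNorm_mul_apply_le ℝ _ (g n)).trans (hg n)
      _ = 2 := by norm_num
  have hνind : ∀ n (D : Set (Pt G)), ν n (ind D) ≤ 2 := fun n D => by
    have h1 : ‖ind D‖ ≤ 1 := norm_le_of_abs zero_le_one fun x => by
      rw [abs_of_nonneg (ind_nonneg D x)]; exact ind_le_one D x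
    calc ν n (ind D) ≤ ‖ν n (ind D)‖ := le_abs_self _
      _ ≤ ‖ν n‖ * ‖ind D‖ := (ν n).le_opNorm _
      _ ≤ 2 * 1 := by gcongr; exact hνn n
      _ = 2 := by norm_num
  obtain ⟨σ₀, hσ₀⟩ := exists_ulim U ν 2 hνn
  have hinv : Tendsto (fun n : ℕ => 1 / ((n : ℝ) + 1)) U (𝓝 0) :=
    tendsto_one_div_add_atTop_nhds_zero_nat.mono_left hUle
  have hσ₀pos : Pos σ₀ := by
    have h1 : ∀ h : Pt G →ᵇ ℝ, (∀ x, 0 ≤ h x) → (∀ x, h x ≤ 1) → 0 ≤ σ₀ h := by
      intro h h0 h1
      have : Tendsto (fun n : ℕ => ν n h + 1 / ((n : ℝ) + 1)) U (𝓝 (σ₀ h + 0)) :=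
        (hσ₀ h).add hinv
      rw [add_zero] at this
      refine ge_of_tendsto' this fun n => ?_
      have := dom_le (μ n) (g n) 0 h _ (hg n) (hμg n) (fun x => by simpa using h0 x) h1
      rwa [map_zero] at this
    intro h h0
    have hpos : 0 < ‖h‖ + 1 := by positivity
    have := h1 ((1 / (‖h‖ + 1)) • h) (fun x => by
      simp only [BoundedContinuousFunction.smul_apply, smul_eq_mul]
      exact mul_nonneg (by positivity) (h0 x)) (fun x => by
      simp only [BoundedContinuousFunction.smul_apply, smul_eq_mul]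
      rw [one_div, inv_mul_le_iff₀ hpos]
      linarith [le_abs_self (h x), abs_le_norm h x])
    rw [map_smul, smul_eq_mul] at this
    exact (mul_nonneg_iff_of_pos_left (by positivity)).1 this
  set σ : StrongDual ℝ (Pt G →ᵇ ℝ) := σ₀ + σ₀.comp Ev with hσdef
  have hσ : ∀ h, σ h = σ₀ h + σ₀ (Ev h) := fun h => rfl
  have hEpos : ∀ h : Pt G →ᵇ ℝ, (∀ x, 0 ≤ h x) → 0 ≤ σ₀ (Ev h) := fun h h0 =>
    hσ₀pos _ fun x => av_nonneg _ h0
  have hσpos : Pos σ := fun h h0 => by
    rw [hσ]; exact add_nonneg (hσ₀pos h h0) (hEpos h h0)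
  -- the critical level
  set S : Set ℝ := {b | ∃ T, 0 ≤ T ∧ ∀ᶠ n in U, ∀ D, ν n (ind D) - T * σ (ind D) ≤ b} with hS
  have hSne : S.Nonempty := ⟨2, 0, le_rfl, Eventually.of_forall fun n D => by
    simpa using hνind n D⟩
  have hS0 : ∀ b ∈ S, 0 ≤ b := by
    rintro b ⟨T, -, hT⟩
    obtain ⟨n, hn⟩ := hT.exists
    simpa [ind_empty] using hn ∅
  set β := sInf S with hβ
  have hβ0 : 0 ≤ β := le_csInf hSne hS0
  obtain ⟨b, ⟨T₀, hT₀, hT₀b⟩, hb⟩ := exists_lt_of_csInf_lt hSne (show β < β + ε by linarith)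
  have hbig : ∀ T, 0 ≤ T → ∀ᶠ n in U, ∃ D, β - ε < ν n (ind D) - T * σ (ind D) := by
    intro T hT
    have : ¬ ∀ᶠ n in U, ∀ D, ν n (ind D) - T * σ (ind D) ≤ β - ε := fun h => by
      have := csInf_le ⟨0, hS0⟩ (show β - ε ∈ S from ⟨T, hT, h⟩)
      linarith
    filter_upwards [Ultrafilter.eventually_not.2 this] with n hn
    push Not at hn
    exact hn
  -- one step of the recursion
  have step : ∀ (s : ℝ), 0 < s → ∀ (m : ℕ) (V : Set (Pt G)), σ₀ (ind V) < ε →
      ∃ (n : ℕ) (B : Set (Pt G)), m < n ∧ 1 / ((n : ℝ) + 1) ≤ ε ∧ ν n (ind V) < ε ∧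
        (∀ D, ν n (ind D) - T₀ * σ (ind D) ≤ β + ε) ∧
        β - ε < ν n (ind B) - T₀ * σ (ind B) ∧
        σ₀ (ind (V ∪ B ∪ {x | s < av (nd x) (ind B)})) < ε := by
    intro s hs m V hV
    set r := ε - σ₀ (ind V) with hr
    have hr0 : 0 < r := by linarith
    set T := T₀ + (2 + ε) * (1 + 1 / s) / r with hT
    have hT1 : 0 < (2 + ε) * (1 + 1 / s) / r := by positivity
    obtain ⟨n, ⟨B, hB⟩, h1, h2, h3, h4⟩ := ((hbig T (by linarith)).and (hT₀b.and
      (((eventually_gt_atTop m).filter_mono hUle).and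
      ((hinv.eventually (ge_mem_nhds hε)).and ((hσ₀ _).eventually (gt_mem_nhds hV)))))).exists
    have hσB : 0 ≤ σ (ind B) := hσpos _ (ind_nonneg B)
    refine ⟨n, B, h2, h3, h4, fun D => (h1 D).trans hb.le, by nlinarith, ?_⟩
    have hB2 : (2 + ε) * (1 + 1 / s) / r * σ (ind B) < 2 + ε := by
      have := hνind n B
      nlinarith [mul_nonneg hT₀ hσB]
    have hB3 : (1 + 1 / s) * σ (ind B) < r := by
      have h5 : (2 + ε) * ((1 + 1 / s) * σ (ind B)) < (2 + ε) * r := by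
        rw [div_mul_eq_mul_div, div_lt_iff₀ hr0] at hB2
        linarith
      exact lt_of_mul_lt_mul_left h5 (by linarith)
    have hle := hσ₀pos.mono (h := ind (V ∪ B ∪ {x | s < av (nd x) (ind B)}))
      (h' := ind V + ind B + (1 / s) • Ev (ind B)) (fun x => by
        have ha := ind_union_le (V ∪ B) {x | s < av (nd x) (ind B)} x
        have hb := ind_union_le V B x
        have hc : ind {x | s < av (nd x) (ind B)} x ≤ 1 / s * av (nd x) (ind B) := by
          by_cases hx : x ∈ {x | s < av (nd x) (ind B)}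
          · rw [ind_mem hx, one_div, le_inv_mul_iff₀ hs, mul_one]
            exact le_of_lt hx
          · rw [ind_not_mem hx]
            exact mul_nonneg (by positivity) (av_nonneg _ (ind_nonneg B))
        simp only [BoundedContinuousFunction.add_apply, BoundedContinuousFunction.smul_apply,
          smul_eq_mul, Ev_apply]
        linarith)
    rw [map_add, map_add, map_smul, smul_eq_mul] at hle
    have ha := hσ₀pos _ (ind_nonneg B)
    have hb := hEpos _ (ind_nonneg B)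
    rw [hσ] at hB3
    have hs' : 0 < 1 / s := by positivity
    nlinarith [mul_nonneg hs'.le ha]
  choose! nx Bx hx1 hx2 hx3 hx4 hx5 hx6 using step
  set s : ℕ → ℝ := fun k => δ / 2 ^ (k + 1) with hsdef
  have hs : ∀ k, 0 < s k := fun k => by positivity
  let st : ℕ → ℕ × Set (Pt G) := fun k => Nat.rec (0, ∅) (fun k p =>
    (nx (s k) p.1 p.2, p.2 ∪ Bx (s k) p.1 p.2 ∪
      {x | s k < av (nd x) (ind (Bx (s k) p.1 p.2))})) k
  set V : ℕ → Set (Pt G) := fun k => (st k).2 with hVdef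
  set n : ℕ → ℕ := fun k => nx (s k) (st k).1 (V k) with hndef
  set B : ℕ → Set (Pt G) := fun k => Bx (s k) (st k).1 (V k) with hBdef
  have hst1 : ∀ k, (st (k + 1)).1 = n k := fun k => rfl
  have hVs : ∀ k, V (k + 1) = V k ∪ B k ∪ {x | s k < av (nd x) (ind (B k))} := fun k => rfl
  have hV : ∀ k, σ₀ (ind (V k)) < ε := by
    intro k
    induction k with
    | zero =>
      have : V 0 = ∅ := rfl
      rw [this, ind_empty, map_zero]; exact hε
    | succ k ih => rw [hVs]; exact hx6 _ (hs k) _ _ ih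
  have hVmono : Monotone V := monotone_nat_of_le_succ fun k => by
    rw [hVs]; exact Set.subset_union_left.trans Set.subset_union_left
  have hne : ∀ k, ‖μ (n k)‖ - ε ≤ μ (n k) (g (n k)) := fun k => by
    have h1 : 1 / ((n k : ℝ) + 1) ≤ ε := hx2 _ (hs k) _ _ (hV k)
    linarith [hμg (n k)]
  refine ⟨σ, T₀, n, fun k => B k \ V k, hσpos, hT₀, strictMono_nat_of_lt_succ fun k => ?_,
    fun k l hkl => ?_, hne, fun k φ hφ => ?_, fun i => ?_⟩
  · exact hx1 _ (hs (k + 1)) _ _ (hV (k + 1))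
  · rw [Set.disjoint_left]
    intro x hx hx'
    apply hx'.2
    apply hVmono (Nat.succ_le_of_lt hkl)
    rw [hVs]
    exact Or.inl (Or.inr hx.1)
  · have h3 : ν (n k) (ind (V k)) < ε := hx3 _ (hs k) _ _ (hV k)
    have h4 : ∀ D, ν (n k) (ind D) - T₀ * σ (ind D) ≤ β + ε := hx4 _ (hs k) _ _ (hV k)
    have h5 : β - ε < ν (n k) (ind (B k)) - T₀ * σ (ind (B k)) := hx5 _ (hs k) _ _ (hV k)
    have hD : ∀ D ⊆ (B k \ V k)ᶜ, (ν (n k) - T₀ • σ) (ind D) ≤ 4 * ε := by
      intro D hD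
      have e1 : D = (D \ V k) ∪ (D ∩ V k) := (Set.sdiff_union_inter D (V k)).symm
      have d1 : Disjoint (D \ V k) (D ∩ V k) := Set.disjoint_sdiff_inter
      have d2 : Disjoint (D \ V k) (B k) := by
        rw [Set.disjoint_left]
        intro x hx hxB
        exact hD hx.1 ⟨hxB, hx.2⟩
      have a1 := h4 ((D \ V k) ∪ B k)
      rw [ind_union d2, map_add, map_add] at a1
      have a2 : ν (n k) (ind (D ∩ V k)) ≤ ν (n k) (ind (V k)) + ε := by
        rw [hν, hν]
        refine dom_le _ _ _ _ _ (hg _) (hne k) (fun x => ?_) (ind_le_one _)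
        rw [BoundedContinuousFunction.mul_apply, abs_mul, abs_of_nonneg (ind_nonneg _ x)]
        calc |g (n k) x| * ind (D ∩ V k) x ≤ 1 * ind (V k) x := by
              gcongr
              · exact ind_nonneg _ x
              · exact (abs_le_norm _ x).trans (hg _)
              · exact ind_mono Set.inter_subset_right x
          _ = ind (V k) x := one_mul _
      have a3 : 0 ≤ T₀ * σ (ind (D ∩ V k)) := mul_nonneg hT₀ (hσpos _ (ind_nonneg _))
      have e2 : (ν (n k) - T₀ • σ) (ind D) = ν (n k) (ind D) - T₀ * σ (ind D) := rfl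
      rw [e2, e1, ind_union d1, map_add, map_add]
      linarith
    have hφx : ∀ x, |φ x| ≤ 1 := fun x => (abs_le_norm φ x).trans hφ
    have hh0 : ∀ x, 0 ≤ (|φ| * ind (B k \ V k)ᶜ) x := fun x =>
      mul_nonneg (abs_nonneg (φ x)) (ind_nonneg _ x)
    have hhle : ∀ x, (|φ| * ind (B k \ V k)ᶜ) x ≤ |φ| x := fun x =>
      mul_le_of_le_one_right (abs_nonneg (φ x)) (ind_le_one _ x)
    have b1 := layer _ _ _ hD (|φ| * ind (B k \ V k)ᶜ) hh0 (fun x => (hhle x).trans (hφx x))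
      (fun x hx => by rw [BoundedContinuousFunction.mul_apply, ind_not_mem hx, mul_zero])
    have e2 : (ν (n k) - T₀ • σ) (|φ| * ind (B k \ V k)ᶜ)
        = ν (n k) (|φ| * ind (B k \ V k)ᶜ) - T₀ * σ (|φ| * ind (B k \ V k)ᶜ) := rfl
    have b2 := dom_le (μ (n k)) (g (n k)) (φ * ind (B k \ V k)ᶜ) (|φ| * ind (B k \ V k)ᶜ) ε
      (hg _) (hne k) (fun x => by
        rw [BoundedContinuousFunction.mul_apply, abs_mul, abs_of_nonneg (ind_nonneg _ x)]
        exact le_rfl) (fun x => (hhle x).trans (hφx x))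
    have b3 := mul_le_mul_of_nonneg_left (hσpos.mono hhle) hT₀
    rw [← hν] at b2
    linarith
  · -- sparseness inside the node `i`
    have hj : ∃ j, ∀ k, k ≠ j → av i (ind (B k \ V k)) ≤ s k := by
      by_cases hex : ∃ k, s k < av i (ind (B k))
      · refine ⟨Nat.find hex, fun k hk => ?_⟩
        rcases lt_or_gt_of_ne hk with hlt | hgt
        · refine le_trans ?_ (not_lt.1 (Nat.find_min hex hlt))
          exact Finset.expect_le_expect fun t _ => ind_mono Set.sdiff_subset _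
        · refine le_trans (le_of_eq (Finset.expect_eq_zero fun t _ => ind_not_mem fun hx => ?_))
            (hs k).le
          apply hx.2
          apply hVmono (Nat.succ_le_of_lt hgt)
          rw [hVs]
          exact Or.inr (Nat.find_spec hex)
      · push Not at hex
        refine ⟨0, fun k _ => le_trans ?_ (hex k)⟩
        exact Finset.expect_le_expect fun t _ => ind_mono Set.sdiff_subset _
    obtain ⟨j, hj⟩ := hj
    refine ⟨j, ?_⟩
    have hκ : ∀ t : G i, ∃ k : ℕ, (∃ k, k ≠ j ∧ pt i t ∈ B k \ V k) →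
        k ≠ j ∧ pt i t ∈ B k \ V k := by
      intro t
      by_cases h : ∃ k, k ≠ j ∧ pt i t ∈ B k \ V k
      · obtain ⟨k, hk⟩ := h
        exact ⟨k, fun _ => hk⟩
      · exact ⟨0, fun h' => absurd h' h⟩
    choose κ hκ using hκ
    set M := Finset.univ.sup κ + 1 with hM
    calc av i (ind {x | ∃ k, k ≠ j ∧ x ∈ B k \ V k})
        ≤ 𝔼 t : G i, ∑ k ∈ (Finset.range M).erase j, ind (B k \ V k) (pt i t) := by
          refine Finset.expect_le_expect fun t _ => ?_
          by_cases h : ∃ k, k ≠ j ∧ pt i t ∈ B k \ V k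
          · rw [ind_mem (D := {x | ∃ k, k ≠ j ∧ x ∈ B k \ V k}) h, ← ind_mem (hκ t h).2]
            refine Finset.single_le_sum (f := fun k => ind (B k \ V k) (pt i t))
              (fun k _ => ind_nonneg _ _) ?_
            rw [Finset.mem_erase, Finset.mem_range]
            exact ⟨(hκ t h).1, Nat.lt_succ_of_le (Finset.le_sup (Finset.mem_univ t))⟩
          · rw [ind_not_mem (D := {x | ∃ k, k ≠ j ∧ x ∈ B k \ V k}) h]
            exact Finset.sum_nonneg fun k _ => ind_nonneg _ _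
      _ = ∑ k ∈ (Finset.range M).erase j, av i (ind (B k \ V k)) :=
          Finset.expect_sum_comm _ _ _
      _ ≤ ∑ k ∈ (Finset.range M).erase j, s k :=
          Finset.sum_le_sum fun k hk => hj k (Finset.mem_erase.1 hk).1
      _ ≤ ∑ k ∈ Finset.range M, s k :=
          Finset.sum_le_sum_of_subset_of_nonneg (Finset.erase_subset _ _) fun k _ _ => (hs k).le
      _ ≤ δ := by
          have : ∀ M : ℕ, ∑ k ∈ Finset.range M, s k = δ - δ / 2 ^ M := by
            intro M
            induction M with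
            | zero => simp
            | succ M ih => rw [Finset.sum_range_succ, ih, hsdef]; field_simp; ring
          rw [this]
          have : 0 < δ / 2 ^ M := by positivity
          linarith

end Pool.Agent.Lib.MP_f0fee1_an
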