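import Mathlib

/-! Rademacher functions on the discrete cube. -/

open scoped BigOperators

namespace Pool.Agent.Lib.MP_f0fee1_an

/-- The sign of a Boolean. -/
def rd (b : Bool) : ℝ := if b then 1 else -1

lemma abs_rd (b : Bool) : |rd b| = 1 := by cases b <;> simp [rd]

lemma rd_sq (b : Bool) : rd b ^ 2 = 1 := by cases b <;> simp [rd]

lemma expect_prod {K : Type*} [Field K] [CharZero K] {n : ℕ} (φ : Fin n → Bool → K) :
    𝔼 t : Fin n → Bool, ∏ k, φ k (t k) = ∏ k, (φ k true + φ k false) / 2 := by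
  rw [Fintype.expect_eq_sum_div_card, Finset.prod_div_distrib, ← Fintype.piFinset_univ,
    ← Finset.prod_univ_sum]
  simp

lemma exp_half_le_two : Real.exp (1 / 2) ≤ 2 := by
  have h : Real.exp (1 / 2) ^ 2 = Real.exp 1 := by
    rw [← Real.exp_nat_mul]; norm_num
  have h2 := Real.exp_one_lt_three
  nlinarith [Real.exp_pos (1 / 2)]

lemma expect_exp_le {n : ℕ} (a : Fin n → ℝ) (ha : ∑ k, a k ^ 2 ≤ 1) :
    𝔼 t : Fin n → Bool, Real.exp (∑ k, a k * rd (t k)) ≤ 2 := by
  simp only [Real.exp_sum]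
  rw [expect_prod (fun k b => Real.exp (a k * rd b))]
  calc ∏ k, (Real.exp (a k * rd true) + Real.exp (a k * rd false)) / 2
      ≤ ∏ k, Real.exp (a k ^ 2 / 2) := by
        refine Finset.prod_le_prod (fun k _ => by positivity) fun k _ => ?_
        have := Real.cosh_le_exp_half_sq (a k)
        rw [Real.cosh_eq] at this
        simpa [rd] using this
    _ = Real.exp ((∑ k, a k ^ 2) / 2) := by rw [← Real.exp_sum, Finset.sum_div]
    _ ≤ Real.exp (1 / 2) := by gcongr
    _ ≤ 2 := exp_half_le_two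

lemma expect_pow_four_le {n : ℕ} (a : Fin n → ℝ) (ha : ∑ k, a k ^ 2 ≤ 1) :
    𝔼 t : Fin n → Bool, (∑ k, a k * rd (t k)) ^ 4 ≤ 100 := by
  have h1 := expect_exp_le a ha
  have h2 := expect_exp_le (fun k => - a k) (by simpa using ha)
  calc 𝔼 t : Fin n → Bool, (∑ k, a k * rd (t k)) ^ 4
      ≤ 𝔼 t : Fin n → Bool, 24 * (Real.exp (∑ k, a k * rd (t k))
          + Real.exp (∑ k, - a k * rd (t k))) := by
        refine Finset.expect_le_expect fun t _ => ?_
        set x := ∑ k, a k * rd (t k) with hx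
        have e : ∑ k, - a k * rd (t k) = -x := by
          rw [hx, ← Finset.sum_neg_distrib]; exact Finset.sum_congr rfl fun k _ => by ring
        rw [e]
        have h3 := Real.pow_div_factorial_le_exp |x| (abs_nonneg x) 4
        have h4 : |x| ^ 4 = x ^ 4 := by
          rw [← abs_pow]; exact abs_of_nonneg (by positivity)
        have h5 : Real.exp |x| ≤ Real.exp x + Real.exp (-x) := by
          rcases abs_choice x with h | h <;> rw [h]
          · linarith [Real.exp_pos (-x)]
          · linarith [Real.exp_pos x]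
        have h6 : ((Nat.factorial 4 : ℕ) : ℝ) = 24 := by norm_num [Nat.factorial]
        rw [h4, h6, div_le_iff₀ (by norm_num)] at h3
        linarith
    _ = 24 * ((𝔼 t : Fin n → Bool, Real.exp (∑ k, a k * rd (t k)))
          + 𝔼 t : Fin n → Bool, Real.exp (∑ k, - a k * rd (t k))) := by
        rw [← Finset.mul_expect, Finset.expect_add_distrib]
    _ ≤ 100 := by linarith

/-- Rademacher coefficients. -/
noncomputable def Pr {n : ℕ} (v : (Fin n → Bool) → ℝ) : EuclideanSpace ℝ (Fin n) :=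
  WithLp.toLp 2 fun k => 𝔼 t : Fin n → Bool, v t * rd (t k)

lemma Pr_apply {n : ℕ} (v : (Fin n → Bool) → ℝ) (k : Fin n) :
    Pr v k = 𝔼 t : Fin n → Bool, v t * rd (t k) := rfl

lemma Pr_add {n : ℕ} (v w : (Fin n → Bool) → ℝ) : Pr (fun t => v t + w t) = Pr v + Pr w := by
  ext k
  simp [Pr_apply, add_mul, Finset.expect_add_distrib]

lemma Pr_smul {n : ℕ} (c : ℝ) (v : (Fin n → Bool) → ℝ) : Pr (fun t => c * v t) = c • Pr v := by
  ext k
  simp [Pr_apply, mul_assoc, Finset.mul_expect]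

lemma Pr_const {n : ℕ} (c : ℝ) : Pr (fun _ : Fin n → Bool => c) = 0 := by
  classical
  ext k
  have := expect_prod (fun (j : Fin n) b => if j = k then rd b else (1 : ℝ))
  simp only [Finset.prod_ite_eq', Finset.mem_univ, if_true] at this
  rw [Finset.prod_eq_zero (Finset.mem_univ k) (by simp [rd])] at this
  rw [Pr_apply, ← Finset.mul_expect, this]
  simp

lemma sum_sq_normalized {n : ℕ} (p : EuclideanSpace ℝ (Fin n)) (hp : ‖p‖ ≠ 0) :
    ∑ k, (p k / ‖p‖) ^ 2 = 1 := by
  simp only [div_pow]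
  rw [← Finset.sum_div, ← EuclideanSpace.real_norm_sq_eq]
  exact div_self (pow_ne_zero 2 hp)

lemma norm_Pr_le {n : ℕ} (v : (Fin n → Bool) → ℝ) {M l : ℝ} (hl : 0 < l) (hv : ∀ t, |v t| ≤ M) :
    ‖Pr v‖ ≤ l * (𝔼 t, |v t|) + 100 * M / l ^ 3 := by
  have hM : 0 ≤ M := (abs_nonneg _).trans (hv fun _ => true)
  have hE : 0 ≤ 𝔼 t, |v t| := Finset.expect_nonneg fun t _ => abs_nonneg _
  by_cases hp : ‖Pr v‖ = 0
  · rw [hp]; positivity
  set a : Fin n → ℝ := fun k => Pr v k / ‖Pr v‖ with ha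
  have h1 : ‖Pr v‖ = 𝔼 t : Fin n → Bool, v t * ∑ k, a k * rd (t k) := by
    have e1 : ‖Pr v‖ = ∑ k, a k * Pr v k := by
      have : ∑ k, a k * Pr v k = (∑ k, Pr v k ^ 2) / ‖Pr v‖ := by
        rw [Finset.sum_div]; exact Finset.sum_congr rfl fun k _ => by rw [ha]; ring
      rw [this, ← EuclideanSpace.real_norm_sq_eq]
      field_simp
    rw [e1]
    simp only [Finset.mul_sum]
    rw [Finset.expect_sum_comm]
    refine Finset.sum_congr rfl fun k _ => ?_
    rw [Pr_apply, Finset.mul_expect]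
    exact Finset.expect_congr rfl fun t _ => by ring
  have h2 := expect_pow_four_le a (sum_sq_normalized _ hp).le
  calc ‖Pr v‖ = 𝔼 t : Fin n → Bool, v t * ∑ k, a k * rd (t k) := h1
    _ ≤ 𝔼 t : Fin n → Bool, (l * |v t| + M / l ^ 3 * (∑ k, a k * rd (t k)) ^ 4) := by
        refine Finset.expect_le_expect fun t _ => ?_
        set x := ∑ k, a k * rd (t k) with hx
        have h4 : |x| ^ 4 = x ^ 4 := by
          rw [← abs_pow]; exact abs_of_nonneg (by positivity)
        have h5 : v t * x ≤ |v t| * |x| := by rw [← abs_mul]; exact le_abs_self _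
        rcases le_total |x| l with h | h
        · have : 0 ≤ M / l ^ 3 * x ^ 4 := by positivity
          nlinarith [abs_nonneg (v t)]
        · have h6 : |x| ≤ x ^ 4 / l ^ 3 := by
            rw [le_div_iff₀ (by positivity), ← h4]
            calc |x| * l ^ 3 ≤ |x| * |x| ^ 3 := by gcongr
              _ = |x| ^ 4 := by ring
          have h7 : |v t| * |x| ≤ M * (x ^ 4 / l ^ 3) := by gcongr; exact hv t
          have : 0 ≤ l * |v t| := by positivity
          have e : M * (x ^ 4 / l ^ 3) = M / l ^ 3 * x ^ 4 := by ring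
          linarith
    _ = l * (𝔼 t, |v t|) + M / l ^ 3 * 𝔼 t : Fin n → Bool, (∑ k, a k * rd (t k)) ^ 4 := by
        rw [Finset.expect_add_distrib, ← Finset.mul_expect, ← Finset.mul_expect]
    _ ≤ l * (𝔼 t, |v t|) + M / l ^ 3 * 100 := by gcongr
    _ = l * (𝔼 t, |v t|) + 100 * M / l ^ 3 := by ring

/-- Bounded lifting of Rademacher coefficients (a Riesz product). -/
lemma exists_lift {n : ℕ} (s : EuclideanSpace ℝ (Fin n)) :
    ∃ v : (Fin n → Bool) → ℝ, (∀ t, |v t| ≤ 2 * ‖s‖) ∧ Pr v = s := by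
  classical
  by_cases hs : ‖s‖ = 0
  · refine ⟨fun _ => 0, fun t => by simp, ?_⟩
    rw [Pr_const, norm_eq_zero.1 hs]
  set a : Fin n → ℝ := fun k => s k / ‖s‖ with ha
  have ha1 : ∑ k, a k ^ 2 = 1 := sum_sq_normalized s hs
  set z : (Fin n → Bool) → ℂ := fun t => ∏ k, (1 + (a k * rd (t k) : ℝ) * Complex.I) with hz
  refine ⟨fun t => ‖s‖ * (z t).im, fun t => ?_, ?_⟩
  · have h1 : ‖z t‖ ^ 2 ≤ 2 ^ 2 := by
      rw [hz]
      simp only [norm_prod]
      rw [← Finset.prod_pow]
      calc ∏ k, ‖(1 + (a k * rd (t k) : ℝ) * Complex.I : ℂ)‖ ^ 2 ≤ ∏ k, Real.exp (a k ^ 2) := by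
            refine Finset.prod_le_prod (fun k _ => by positivity) fun k _ => ?_
            rw [Complex.sq_norm, ← Complex.ofReal_one, Complex.normSq_add_mul_I, mul_pow, rd_sq]
            linarith [Real.add_one_le_exp (a k ^ 2)]
        _ = Real.exp 1 := by rw [← Real.exp_sum, ha1]
        _ ≤ 2 ^ 2 := by linarith [Real.exp_one_lt_three]
    have h2 : ‖z t‖ ≤ 2 := (pow_le_pow_iff_left₀ (norm_nonneg _) (by norm_num) two_ne_zero).1 h1
    rw [abs_mul, abs_norm, mul_comm]
    gcongr
    exact (Complex.abs_im_le_norm _).trans h2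
  · rw [Pr_smul]
    ext k
    have h1 := expect_prod (fun (j : Fin n) b =>
      ((1 + (a j * rd b : ℝ) * Complex.I) * (if j = k then (rd b : ℂ) else 1) : ℂ))
    simp only [Finset.prod_mul_distrib, Finset.prod_ite_eq', Finset.mem_univ, if_true] at h1
    have h2 : ∏ j : Fin n, ((1 + (a j * rd true : ℝ) * Complex.I) *
          (if j = k then (rd true : ℂ) else 1) + (1 + (a j * rd false : ℝ) * Complex.I) *
          (if j = k then (rd false : ℂ) else 1)) / 2 = (a k : ℂ) * Complex.I := by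
      rw [Finset.prod_eq_single k]
      · simp [rd]; ring
      · intro j _ hj
        simp [rd, hj]; ring
      · simp
    rw [h2] at h1
    have h3 := congrArg Complex.im h1
    rw [Complex.im_expect] at h3
    simp only [Complex.mul_im, Complex.ofReal_re, Complex.ofReal_im, mul_zero, zero_add,
      Complex.I_re, Complex.I_im, mul_one, add_zero] at h3
    rw [PiLp.smul_apply, Pr_apply, smul_eq_mul]
    change ‖s‖ * 𝔼 t : Fin n → Bool, (∏ k, (1 + (a k * rd (t k) : ℝ) * Complex.I : ℂ)).im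
      * rd (t k) = s k
    rw [h3, ha]
    field_simp

end Pool.Agent.Lib.MP_f0fee1_an
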