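import Pool.Agent.Lib.MP_f0fee1_an.Abstract
import Pool.Agent.Lib.MP_f0fee1_an.Rad

/-! The tree space. -/

open BoundedContinuousFunction Filter Topology
open scoped BigOperators

namespace Pool.Agent.Lib.MP_f0fee1_an

/-- The dimension of the node `i`. -/
def nn (i : ℕ) : ℕ := (Nat.unpair i).1

/-- The node `i` is a discrete cube. -/
abbrev Gr (i : ℕ) : Type := Fin (nn i) → Bool

instance : Countable (Pt Gr) := inferInstanceAs (Countable (Σ i, Gr i))

instance : Nonempty (Pt Gr) := ⟨pt 0 fun _ => true⟩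

/-- An enumeration of all tuples of points. -/
noncomputable def code (m : ℕ) : ℕ → (Fin m → Pt Gr) :=
  (exists_surjective_nat (Fin m → Pt Gr)).choose

/-- The tuple of points attached to the node `i`. -/
noncomputable def ch (i : ℕ) : Fin (nn i) → Pt Gr :=
  code (nn i) (Nat.unpair (Nat.unpair i).2).1

lemma universal (m : ℕ) (p : Fin m → Pt Gr) (K : ℕ) :
    ∃ i, K ≤ i ∧ ∃ h : nn i = m, ∀ k, ch i k = p (Fin.cast h k) := by
  obtain ⟨c, hc⟩ := (exists_surjective_nat (Fin m → Pt Gr)).choose_spec p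
  have aux : ∀ (m' : ℕ) (h : m' = m) (k : Fin m'), code m' c k = p (Fin.cast h k) := by
    intro m' h k
    subst h
    rw [← hc]; rfl
  refine ⟨Nat.pair m (Nat.pair c K), (Nat.right_le_pair _ _).trans (Nat.right_le_pair _ _),
    by simp [nn], fun k => ?_⟩
  rw [ch, ← aux]
  simp

/-- The prescribed Rademacher coefficients. -/
noncomputable def Sv (f : Pt Gr → ℝ) (i : ℕ) : EuclideanSpace ℝ (Fin (nn i)) :=
  WithLp.toLp 2 fun k => (1 / 100) / √(nn i) * (if nd (ch i k) < i then f (ch i k) else 0)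

lemma Sv_apply (f : Pt Gr → ℝ) (i : ℕ) (k : Fin (nn i)) :
    Sv f i k = (1 / 100) / √(nn i) * (if nd (ch i k) < i then f (ch i k) else 0) := rfl

lemma norm_Sv_le (f : Pt Gr → ℝ) (i : ℕ) {C : ℝ} (hC : 0 ≤ C) (h : ∀ x, nd x < i → |f x| ≤ C) :
    ‖Sv f i‖ ≤ C / 100 := by
  refine (pow_le_pow_iff_left₀ (norm_nonneg _) (by positivity) two_ne_zero).1 ?_
  rw [EuclideanSpace.real_norm_sq_eq]
  rcases Nat.eq_zero_or_pos (nn i) with h0 | h0
  · have : IsEmpty (Fin (nn i)) := by rw [h0]; infer_instance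
    simp only [Finset.univ_eq_empty, Finset.sum_empty]
    positivity
  have hn : (0 : ℝ) < nn i := by exact_mod_cast h0
  calc ∑ k, Sv f i k ^ 2 ≤ ∑ _k : Fin (nn i), (C / 100) ^ 2 / nn i := by
        refine Finset.sum_le_sum fun k _ => ?_
        rw [Sv_apply, mul_pow, div_pow, Real.sq_sqrt hn.le]
        have : (if nd (ch i k) < i then f (ch i k) else 0) ^ 2 ≤ C ^ 2 := by
          split_ifs with hk
          · exact sq_le_sq' (abs_le.1 (h _ hk)).1 (abs_le.1 (h _ hk)).2
          · rw [zero_pow two_ne_zero]; positivity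
        calc (1 / 100) ^ 2 / (nn i : ℝ) * (if nd (ch i k) < i then f (ch i k) else 0) ^ 2
            ≤ (1 / 100) ^ 2 / (nn i : ℝ) * C ^ 2 := by gcongr
          _ = (C / 100) ^ 2 / nn i := by ring
    _ = (C / 100) ^ 2 := by
        rw [Finset.sum_const, Finset.card_univ, Fintype.card_fin, nsmul_eq_mul]
        field_simp

/-- The subspace. -/
noncomputable def Wsub : Submodule ℝ (Pt Gr →ᵇ ℝ) where
  carrier := {f | ∀ i, Pr (fun t => f (pt i t)) = Sv f i}
  add_mem' := by
    intro f g hf hg i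
    have := Pr_add (fun t => f (pt i t)) (fun t => g (pt i t))
    simp only [BoundedContinuousFunction.add_apply]
    rw [this, hf i, hg i]
    ext k
    simp only [PiLp.add_apply, Sv_apply, BoundedContinuousFunction.add_apply]
    split_ifs <;> ring
  zero_mem' := by
    intro i
    simp only [BoundedContinuousFunction.coe_zero, Pi.zero_apply]
    rw [Pr_const]
    ext k
    simp [Sv_apply]
  smul_mem' := by
    intro c f hf i
    have := Pr_smul c (fun t => f (pt i t))
    simp only [BoundedContinuousFunction.smul_apply, smul_eq_mul]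
    rw [this, hf i]
    ext k
    simp only [PiLp.smul_apply, Sv_apply, BoundedContinuousFunction.smul_apply, smul_eq_mul]
    split_ifs <;> ring

lemma isClosed_Wsub : IsClosed (Wsub : Set (Pt Gr →ᵇ ℝ)) := by
  have : (Wsub : Set (Pt Gr →ᵇ ℝ)) = ⋂ i, ⋂ k, {f : Pt Gr →ᵇ ℝ |
      (∑ t, f (pt i t) * rd (t k)) / Fintype.card (Gr i) =
        (1 / 100) / √(nn i) * (if nd (ch i k) < i then f (ch i k) else 0)} := by
    ext f
    simp only [Set.mem_iInter, Set.mem_ofPred_eq]
    refine forall_congr' fun i => ⟨fun h k => ?_, fun h => ?_⟩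
    · rw [← Fintype.expect_eq_sum_div_card, ← Sv_apply, ← h]; rfl
    · ext k
      rw [Pr_apply, Fintype.expect_eq_sum_div_card, h k, Sv_apply]
  rw [this]
  refine isClosed_iInter fun i => isClosed_iInter fun k => isClosed_eq (by fun_prop) ?_
  split_ifs <;> fun_prop

/-- The correction term, by recursion along the nodes. -/
noncomputable def uu (h : Pt Gr → ℝ) (i : ℕ) : Gr i → ℝ :=
  (exists_lift ((WithLp.toLp 2 fun k => (1 / 100) / √(nn i) *
    (if _hk : nd (ch i k) < i then h (ch i k) + uu h (nd (ch i k)) (ch i k).2 else 0) :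
      EuclideanSpace ℝ (Fin (nn i))) - Pr (fun t => h (pt i t)))).choose
termination_by i

lemma uu_spec (h : Pt Gr → ℝ) (i : ℕ) :
    (∀ t, |uu h i t| ≤ 2 * ‖Sv (fun x => h x + uu h (nd x) x.2) i - Pr (fun t => h (pt i t))‖) ∧
      Pr (uu h i) = Sv (fun x => h x + uu h (nd x) x.2) i - Pr (fun t => h (pt i t)) := by
  rw [uu]
  exact (exists_lift (Sv (fun x => h x + uu h (nd x) x.2) i
    - Pr (fun t => h (pt i t)))).choose_spec

lemma glue0 (h : Pt Gr →ᵇ ℝ) (h1 : ‖h‖ ≤ 1) (h2 : ∀ i, ‖Pr (fun t => h (pt i t))‖ ≤ 3 / 100) :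
    ∃ f ∈ Wsub, ‖f - h‖ ≤ 1 / 10 := by
  have hu : ∀ i t, |uu h i t| ≤ 1 / 10 := by
    intro i
    induction i using Nat.strong_induction_on with
    | _ i ih =>
      intro t
      have h3 := norm_Sv_le (fun x => h x + uu h (nd x) x.2) i (C := 11 / 10) (by norm_num)
        (fun x hx => by
          have := ih _ hx x.2
          have h4 := (abs_le_norm h x).trans h1
          linarith [abs_add_le (h x) (uu h (nd x) x.2)])
      have h5 := norm_sub_le (Sv (fun x => h x + uu h (nd x) x.2) i) (Pr (fun t => h (pt i t)))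
      linarith [(uu_spec h i).1 t, h2 i]
  refine ⟨h + mk (fun x => uu h (nd x) x.2) (1 / 10) (fun x => hu _ _), fun i => ?_, ?_⟩
  · have := Pr_add (fun t => h (pt i t)) (uu h i)
    rw [(uu_spec h i).2, add_sub_cancel] at this
    exact this
  · rw [add_sub_cancel_left]
    exact norm_le_of_abs (by norm_num) fun x => hu _ _

/-- The Banach space. -/
def XX : Type := Wsub

noncomputable instance : NormedAddCommGroup XX := inferInstanceAs (NormedAddCommGroup Wsub)

noncomputable instance : NormedSpace ℝ XX := inferInstanceAs (NormedSpace ℝ Wsub)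

instance : CompleteSpace XX := isClosed_Wsub.completeSpace_coe

/-- The inclusion into bounded functions. -/
noncomputable def incl : XX →ₗᵢ[ℝ] (Pt Gr →ᵇ ℝ) := Wsub.subtypeₗᵢ

lemma incl_mem (f : XX) (i : ℕ) : Pr (fun t => incl f (pt i t)) = Sv (incl f) i := f.2 i

lemma glue0' (h : Pt Gr →ᵇ ℝ) (h1 : ‖h‖ ≤ 1)
    (h2 : ∀ i, ‖Pr (fun t => h (pt i t))‖ ≤ 3 / 100) : ∃ f : XX, ‖incl f - h‖ ≤ 1 / 10 := by
  obtain ⟨f, hf, hf'⟩ := glue0 h h1 h2
  exact ⟨⟨f, hf⟩, hf'⟩

lemma glue_incl : Glue incl (1 / 100000) := by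
  intro h h1 h2
  refine glue0' h h1 fun i => ?_
  obtain ⟨g, hg, hgi⟩ := h2 i
  have hgx : ∀ x, |incl g x| ≤ 1 := fun x => (abs_le_norm _ x).trans (by rwa [incl.norm_map])
  have hd : ∀ x, |h x - incl g x| ≤ 2 := fun x => by
    linarith [abs_sub (h x) (incl g x), (abs_le_norm h x).trans h1, hgx x]
  have e := Pr_add (fun t => incl g (pt i t)) (fun t => h (pt i t) - incl g (pt i t))
  simp only [add_sub_cancel] at e
  have b1 := norm_Sv_le (incl g) i zero_le_one fun x _ => hgx x
  have b2 := norm_Pr_le (fun t => h (pt i t) - incl g (pt i t)) (M := 2) (l := 30) (by norm_num)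
    fun t => hd _
  have b3 : 𝔼 t : Gr i, |h (pt i t) - incl g (pt i t)| ≤ 2 * av i (ind {x | h x ≠ incl g x}) := by
    rw [av, Finset.mul_expect]
    refine Finset.expect_le_expect fun t _ => ?_
    by_cases hx : pt i t ∈ {x | h x ≠ incl g x}
    · rw [ind_mem hx, mul_one]; exact hd _
    · rw [ind_not_mem hx]
      have : h (pt i t) = incl g (pt i t) := by simpa using hx
      simp [this]
  rw [e, incl_mem]
  refine (norm_add_le _ _).trans ?_
  have b4 : 𝔼 t : Gr i, |h (pt i t) - incl g (pt i t)| ≤ 2 / 100000 := by linarith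
  have b5 : (30 : ℝ) * (𝔼 t : Gr i, |h (pt i t) - incl g (pt i t)|) ≤ 30 * (2 / 100000) := by
    gcongr
  norm_num at b1 b2 b5 ⊢
  linarith

theorem XX_grothendieck (φ : ℕ → StrongDual ℝ XX) (ψ : StrongDual ℝ XX)
    (h : ∀ x, Tendsto (fun n => φ n x) atTop (𝓝 (ψ x))) (Θ : StrongDual ℝ (StrongDual ℝ XX)) :
    Tendsto (fun n => Θ (φ n)) atTop (𝓝 (Θ ψ)) :=
  grothendieck_of_glue incl (by norm_num) glue_incl φ ψ h Θ

/-- An Orlicz type property. -/
theorem XX_orlicz (N : ℕ) (f : Fin N → XX) {c C : ℝ} (hc : 0 < c) (hf : ∀ j, c ≤ ‖f j‖)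
    (hC : ∀ θ : Fin N → Bool, ‖∑ j, rd (θ j) • f j‖ ≤ C) : c * √N ≤ 200 * C := by
  have hp : ∀ j, ∃ x, c / 2 < |incl (f j) x| := by
    intro j
    by_contra hcon
    push Not at hcon
    have := norm_le_of_abs (by positivity) hcon
    rw [incl.norm_map] at this
    linarith [hf j]
  choose p hp using hp
  obtain ⟨i, hK, h, hch⟩ := universal N p (Finset.univ.sup (fun j => nd (p j)) + 1)
  subst h
  have hlt : ∀ k, nd (p k) < i := fun k =>
    lt_of_lt_of_le (Nat.lt_succ_of_le (Finset.le_sup (f := fun j => nd (p j))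
      (Finset.mem_univ k))) hK
  have hsum : ∀ x, ∑ j, |incl (f j) x| ≤ C := by
    intro x
    have h1 := hC fun j => decide (0 ≤ incl (f j) x)
    rw [← incl.norm_map] at h1
    refine le_trans (le_of_eq ?_) ((le_abs_self _).trans ((abs_le_norm _ x).trans h1))
    rw [map_sum, BoundedContinuousFunction.coe_sum, Finset.sum_apply]
    refine Finset.sum_congr rfl fun j _ => ?_
    rw [map_smul, BoundedContinuousFunction.smul_apply, smul_eq_mul]
    by_cases h0 : 0 ≤ incl (f j) x
    · simp [rd, h0, abs_of_nonneg h0]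
    · simp [rd, h0, abs_of_neg (not_le.1 h0)]
  have h1 : ∑ k, |Sv (incl (f k)) i k| ≤ C := by
    calc ∑ k, |Sv (incl (f k)) i k| ≤ ∑ k, 𝔼 t : Gr i, |incl (f k) (pt i t)| := by
          refine Finset.sum_le_sum fun k _ => ?_
          rw [← incl_mem, Pr_apply]
          refine (Finset.abs_expect_le _ _).trans (le_of_eq ?_)
          exact Finset.expect_congr rfl fun t _ => by rw [abs_mul, abs_rd, mul_one]
      _ = 𝔼 t : Gr i, ∑ k, |incl (f k) (pt i t)| := (Finset.expect_sum_comm _ _ _).symm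
      _ ≤ C := Finset.expect_le Finset.univ_nonempty fun t _ => hsum _
  have h2 : ∑ _k : Fin (nn i), (1 / 100) / √(nn i) * (c / 2) ≤ ∑ k, |Sv (incl (f k)) i k| := by
    refine Finset.sum_le_sum fun k _ => ?_
    have e : ch i k = p k := hch k
    rw [Sv_apply, e, if_pos (hlt k), abs_mul, abs_of_nonneg (by positivity)]
    gcongr
    exact (hp k).le
  rw [Finset.sum_const, Finset.card_univ, Fintype.card_fin, nsmul_eq_mul] at h2
  have h3 : (nn i : ℝ) * ((1 / 100) / √(nn i) * (c / 2)) = c * ((nn i : ℝ) / √(nn i)) / 200 := by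
    ring
  rw [h3, Real.div_sqrt] at h2
  linarith

theorem XX_not_reflexive : ¬ Function.Surjective (NormedSpace.inclusionInDoubleDual ℝ XX) := by
  intro hs
  set U : Ultrafilter ℕ := hyperfilter ℕ with hU
  have hUle : (U : Filter ℕ) ≤ atTop := Nat.hyperfilter_le_atTop
  have hf : ∀ l : ℕ, ∃ f : XX, ‖incl f - mk (fun x => rd (decide (nd x < l))) 1
      (fun _ => (abs_rd _).le)‖ ≤ 1 / 10 := fun l =>
    glue0' _ (norm_le_of_abs zero_le_one fun _ => (abs_rd _).le) fun i => by
      have : (fun t : Gr i => mk (fun x : Pt Gr => rd (decide (nd x < l))) 1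
          (fun _ => (abs_rd _).le) (pt i t)) = fun _ => rd (decide (i < l)) := rfl
      rw [this, Pr_const, norm_zero]; norm_num
  choose f hf using hf
  have hfx : ∀ l x, |incl (f l) x - rd (decide (nd x < l))| ≤ 1 / 10 := fun l x =>
    (abs_le_norm (incl (f l) - mk (fun x => rd (decide (nd x < l))) 1
      (fun _ => (abs_rd _).le)) x).trans (hf l)
  have hfn : ∀ l, ‖f l‖ ≤ 2 := fun l => by
    rw [← incl.norm_map]
    refine norm_le_of_abs (by norm_num) fun x => ?_
    have := abs_add_le (incl (f l) x - rd (decide (nd x < l))) (rd (decide (nd x < l)))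
    rw [sub_add_cancel, abs_rd] at this
    linarith [hfx l x]
  set ev : ℕ → StrongDual ℝ XX := fun k =>
    (BoundedContinuousFunction.evalCLM ℝ (pt k fun _ => true : Pt Gr)).comp
      incl.toContinuousLinearMap with hev
  have hev1 : ∀ k w, ev k w = incl w (pt k fun _ => true) := fun k w => rfl
  have hevn : ∀ k, ‖ev k‖ ≤ 1 := fun k =>
    ContinuousLinearMap.opNorm_le_bound _ zero_le_one fun w => by
      rw [one_mul, hev1, ← incl.norm_map]; exact abs_le_norm _ _
  obtain ⟨F, hF⟩ := exists_ulim U ev 1 hevn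
  obtain ⟨Θ, hΘ⟩ := exists_ulim U (fun l => NormedSpace.inclusionInDoubleDual ℝ XX (f l)) 2
    fun l => (NormedSpace.double_dual_bound ℝ XX (f l)).trans (hfn l)
  obtain ⟨w, rfl⟩ := hs Θ
  have h1 : ∀ k, 9 / 10 ≤ ev k w := by
    intro k
    refine ge_of_tendsto (hΘ (ev k)) (((eventually_gt_atTop k).filter_mono hUle).mono
      fun l hl => ?_)
    have := hfx l (pt k fun _ => true)
    have e : rd (decide (nd (pt k fun _ => true : Pt Gr) < l)) = 1 := by simp [rd, nd, pt, hl]
    rw [e] at this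
    change 9 / 10 ≤ incl (f l) (pt k fun _ => true)
    linarith [(abs_le.1 this).1]
  have h2 : ∀ l, F (f l) ≤ - (9 / 10) := by
    intro l
    refine le_of_tendsto (hF (f l)) (((eventually_ge_atTop l).filter_mono hUle).mono
      fun k hk => ?_)
    have := hfx l (pt k fun _ => true)
    have e : rd (decide (nd (pt k fun _ => true : Pt Gr) < l)) = -1 := by
      simp [rd, nd, pt, hk]
    rw [e] at this
    rw [hev1]
    linarith [(abs_le.1 this).2]
  have h3 : 9 / 10 ≤ F w := ge_of_tendsto' (hF w) h1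
  have h4 : F w ≤ - (9 / 10) := le_of_tendsto' (hΘ F) h2
  linarith

end Pool.Agent.Lib.MP_f0fee1_an
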